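import Mathlib

/-!
# MP_c9c10f (small monochromatic rectangles), ARBITRARY colourings: statements

IDEA.  Let `c : ℂ → Bool` be an arbitrary colouring (signs `±1`).  The additive group of `ℂ` and the
circle group are abelian, so they have invariant means `M_C`, `M_T` on all bounded functions
(`ST_MEAN`).  `φ(v) = M_T (θ ↦ M_C (z ↦ c(z) c(z + θ v)))` is positive definite on the DISCRETE
plane and depends only on `|v|`: `φ(v) = F(|v|²)` (`ST_PHI`).  A window inequality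
`∑ a_t c(z + u p_t) c(z + u q_t) ≤ K + h(z, u) - h(z + u, u)`, valid for all `z` and all unit `u`, gives
`∑ a_t F(|q_t - p_t|²) ≤ K`.  `N = 3`: a finite certificate (`ST_CERT3`) shows that there is no
such `F` when `c` has no monochromatic `m × n` rectangle, `m ∈ {1, 2}`, `n ∈ {1, 2, 3}`.
-/

set_option autoImplicit false

namespace Pool.Agent.Helper16.RA

/-- the colour of the four vertices of some `m × n` rectangle is the same -/
def Mono (c : ℂ → Bool) (m n : ℕ) : Prop :=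
  ∃ z u : ℂ, ‖u‖ = 1 ∧ c (z + m * u) = c z ∧ c (z + n * (Complex.I * u)) = c z ∧
    c (z + m * u + n * (Complex.I * u)) = c z

/-- colours as real signs -/
def sgr (b : Bool) : ℝ := if b then 1 else -1

/-- bounded functions -/
def Bd {A : Type} (f : A → ℝ) : Prop := ∃ C : ℝ, ∀ x, |f x| ≤ C

/-- row MEAN: every (additive) commutative group has an invariant mean on bounded functions -/
def ST_MEAN : Prop := ∀ (A : Type) [AddCommGroup A], ∃ M : (A → ℝ) → ℝ,
  (∀ f g, Bd f → Bd g → M (f + g) = M f + M g) ∧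
  (∀ (a : ℝ) (f : A → ℝ), Bd f → M (a • f) = a * M f) ∧
  (∀ f, Bd f → (∀ x, 0 ≤ f x) → 0 ≤ M f) ∧
  M (fun _ => 1) = 1 ∧
  (∀ (f : A → ℝ) (t : A), Bd f → M (fun x => f (x + t)) = M f)

/-- radial positive definite functions on the discrete plane; `F` is a function of the SQUARE of
the distance -/
structure RPD (F : ℝ → ℝ) : Prop where
  one : F 0 = 1
  bd : ∀ t, |F t| ≤ 1
  pd : ∀ (n : ℕ) (x : Fin n → ℂ) (w : Fin n → ℝ),
    0 ≤ ∑ i, ∑ j, w i * w j * F (Complex.normSq (x i - x j))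

/-- row PHI: the radial correlation function of an arbitrary colouring and the transfer of window
inequalities.  Proof: `F t = M_T (θ ↦ M_C (z ↦ sgr (c z) * sgr (c (z + θ * √t))))`, `M_T` the mean of
`Additive Circle` (or of the unit complex numbers), `M_C` the mean of `ℂ`.  For `v ≠ 0`,
`v = |v| θ_v`, so `M_T (θ ↦ g (θ v)) = M_T (θ ↦ g (θ |v|))`.  Positive definite:
`∑ w_i w_j c(z + θ x_i) c(z + θ x_j) = (∑ w_i c(z + θ x_i))² ≥ 0`, translation invariance.
The potential `h` cancels because `M_C` is invariant under `z ↦ z + u`. -/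
def ST_PHI : Prop := ∀ c : ℂ → Bool, ∃ F : ℝ → ℝ, RPD F ∧
  ∀ (L : List (ℂ × ℂ × ℝ)) (K : ℝ) (h : ℂ → ℂ → ℝ), (∃ C : ℝ, ∀ z u, |h z u| ≤ C) →
    (∀ z u : ℂ, ‖u‖ = 1 →
      (L.map fun t => t.2.2 * (sgr (c (z + u * t.1)) * sgr (c (z + u * t.2.1)))).sum ≤
        K + (h z u - h (z + u) u)) →
    (L.map fun t => t.2.2 * F (Complex.normSq (t.2.1 - t.1))).sum ≤ K

/-- row CERT3 (finite certificate): no radial positive definite `F` satisfies all window
inequalities of a colouring without monochromatic `m × n` rectangles, `m ∈ {1, 2}`, `n ≤ 3`. -/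
def ST_CERT3 : Prop := ∀ c : ℂ → Bool,
  (∀ m n : ℕ, (m = 1 ∨ m = 2) → 1 ≤ n → n ≤ 3 → ¬ Mono c m n) →
  ∀ F : ℝ → ℝ, RPD F →
  (∀ (L : List (ℂ × ℂ × ℝ)) (K : ℝ) (h : ℂ → ℂ → ℝ), (∃ C : ℝ, ∀ z u, |h z u| ≤ C) →
    (∀ z u : ℂ, ‖u‖ = 1 →
      (L.map fun t => t.2.2 * (sgr (c (z + u * t.1)) * sgr (c (z + u * t.2.1)))).sum ≤
        K + (h z u - h (z + u) u)) →
    (L.map fun t => t.2.2 * F (Complex.normSq (t.2.1 - t.1))).sum ≤ K) → False

/-- the theorem for `N = 3` -/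
theorem fin3 (hP : ST_PHI) (hC : ST_CERT3) (c : ℂ → Bool) :
    ∃ m n : ℕ, (m = 1 ∨ m = 2) ∧ 1 ≤ n ∧ n ≤ 3 ∧ Mono c m n := by
  by_contra hne
  obtain ⟨F, hF, hW⟩ := hP c
  exact hC c (fun m n hm h1 h3 hM => hne ⟨m, n, hm, h1, h3, hM⟩) F hF hW

end Pool.Agent.Helper16.RA
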