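import Pool.Agent.Helper72.RA.Defs2

set_option autoImplicit false

namespace Pool.Agent.Helper72.RA

open Real Finset MeasureTheory Filter

open scoped Classical

namespace AVOID

theorem unif_univ : unif Set.univ = 1 := by
  have hp : ENNReal.ofReal π ≠ 0 := by simp [Real.pi_pos]
  rw [unif, Measure.smul_apply, Measure.restrict_apply MeasurableSet.univ, Set.univ_inter,
    Real.volume_Ioo, sub_zero, smul_eq_mul]
  exact ENNReal.inv_mul_cancel hp ENNReal.ofReal_ne_top

instance : IsProbabilityMeasure unif := ⟨unif_univ⟩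

/-- the event -/
def ev {N : ℕ} (V : Set ((Fin N → ℝ) × ℝ)) (u : ℝ) (J : Finset (Fin N)) : Set (Fin N → ℝ) :=
  {θ | u ≤ (unif {y | (θ, y) ∈ V}).toReal ∧ ∀ t ∈ J, (θ, θ t) ∉ V}

theorem meas {N : ℕ} (V : Set ((Fin N → ℝ) × ℝ)) (u : ℝ) (J : Finset (Fin N))
    (hV : MeasurableSet V) : MeasurableSet (ev V u J) := by
  have h1 : Measurable fun θ : Fin N → ℝ => (unif (Prod.mk θ ⁻¹' V)).toReal :=
    (measurable_measure_prodMk_left hV).ennreal_toReal
  have h2 : MeasurableSet {θ : Fin N → ℝ | u ≤ (unif (Prod.mk θ ⁻¹' V)).toReal} :=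
    measurableSet_le measurable_const h1
  have h3 : ∀ t : Fin N, MeasurableSet {θ : Fin N → ℝ | (θ, θ t) ∉ V} := by
    intro t
    have : Measurable fun θ : Fin N → ℝ => (θ, θ t) :=
      measurable_id.prodMk (measurable_pi_apply t)
    exact (this hV).compl
  have h4 : MeasurableSet {θ : Fin N → ℝ | ∀ t ∈ J, (θ, θ t) ∉ V} := by
    have : {θ : Fin N → ℝ | ∀ t ∈ J, (θ, θ t) ∉ V} = ⋂ t ∈ J, {θ | (θ, θ t) ∉ V} := by
      ext θ; simp
    rw [this]
    exact Finset.measurableSet_biInter _ fun t _ => h3 t
  exact h2.inter h4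

theorem step {N : ℕ} (I J : Finset (Fin N)) (t : Fin N) (V : Set ((Fin N → ℝ) × ℝ)) (u : ℝ)
    (hV : MeasurableSet V)
    (hI : ∀ (θ θ' : Fin N → ℝ) (y : ℝ), (∀ t ∈ I, θ t = θ' t) → ((θ, y) ∈ V ↔ (θ', y) ∈ V))
    (htI : t ∉ I) (htJ : t ∉ J) :
    (Measure.pi fun _ : Fin N => unif) (ev V u (insert t J)) ≤
      ENNReal.ofReal (1 - u) * (Measure.pi fun _ : Fin N => unif) (ev V u J) := by
  have hm1 := meas V u (insert t J) hV
  have hm2 := meas V u J hV
  rw [← lintegral_indicator_one hm1, ← lintegral_indicator_one hm2,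
    ← lintegral_const_mul _ (measurable_one.indicator hm2)]
  refine lintegral_le_of_lmarginal_le {t} (measurable_one.indicator hm1)
    ((measurable_one.indicator hm2).const_mul _) ?_
  rw [lmarginal_singleton, lmarginal_singleton]
  intro θ
  have hup : ∀ x y : ℝ, ((Function.update θ t x, y) ∈ V ↔ (θ, y) ∈ V) := by
    intro x y
    apply hI
    intro s hs
    rw [Function.update_of_ne (by rintro rfl; exact htI hs)]
  have hset : ∀ x : ℝ, {y | (Function.update θ t x, y) ∈ V} = {y | (θ, y) ∈ V} := by
    intro x; ext y; exact hup x y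
  have hJ : ∀ x : ℝ, (Function.update θ t x ∈ ev V u J ↔ θ ∈ ev V u J) := by
    intro x
    unfold ev
    simp only [Set.mem_ofPred_eq]
    rw [hset x]
    refine and_congr Iff.rfl (forall_congr' fun s => forall_congr' fun hs => ?_)
    rw [hup, Function.update_of_ne (by rintro rfl; exact htJ hs)]
  have hJ1 : ∀ x : ℝ, (Function.update θ t x ∈ ev V u (insert t J) ↔
      θ ∈ ev V u J ∧ (θ, x) ∉ V) := by
    intro x
    unfold ev
    simp only [Set.mem_ofPred_eq, Finset.mem_insert, forall_eq_or_imp]
    rw [hset x, hup, Function.update_self]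
    have : (∀ s ∈ J, (Function.update θ t x, Function.update θ t x s) ∉ V) ↔
        ∀ s ∈ J, (θ, θ s) ∉ V := by
      refine forall_congr' fun s => forall_congr' fun hs => ?_
      rw [hup, Function.update_of_ne (by rintro rfl; exact htJ hs)]
    rw [this]
    tauto
  by_cases hθ : θ ∈ ev V u J
  · have hu : u ≤ (unif {y | (θ, y) ∈ V}).toReal := hθ.1
    have e1 : ∀ x : ℝ, (ev V u (insert t J)).indicator (1 : (Fin N → ℝ) → ENNReal)
        (Function.update θ t x) = ({y | (θ, y) ∈ V}ᶜ).indicator 1 x := by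
      intro x
      by_cases hx : (θ, x) ∈ V
      · rw [Set.indicator_of_notMem, Set.indicator_of_notMem]
        · simpa using hx
        · rw [hJ1]; tauto
      · rw [Set.indicator_of_mem, Set.indicator_of_mem]
        · rfl
        · simpa using hx
        · rw [hJ1]; tauto
    have e2 : ∀ x : ℝ, ENNReal.ofReal (1 - u) * (ev V u J).indicator
        (1 : (Fin N → ℝ) → ENNReal) (Function.update θ t x) = ENNReal.ofReal (1 - u) := by
      intro x
      rw [Set.indicator_of_mem ((hJ x).2 hθ)]
      simp
    have hms : MeasurableSet {y | (θ, y) ∈ V} := measurable_prodMk_left hV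
    simp only [e1, e2]
    rw [lintegral_indicator_one hms.compl, lintegral_const, measure_univ, mul_one,
      measure_compl hms (measure_ne_top _ _), measure_univ]
    rw [← ENNReal.ofReal_toReal (measure_ne_top unif {y | (θ, y) ∈ V}), ← ENNReal.ofReal_one,
      ← ENNReal.ofReal_sub _ ENNReal.toReal_nonneg]
    apply ENNReal.ofReal_le_ofReal
    linarith
  · have e1 : ∀ x : ℝ, (ev V u (insert t J)).indicator (1 : (Fin N → ℝ) → ENNReal)
        (Function.update θ t x) = 0 := by
      intro x
      rw [Set.indicator_of_notMem]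
      rw [hJ1]; tauto
    simp only [e1]
    simp

end AVOID

theorem st_AVOID : ST_AVOID := by
  intro N I J V u hd hV hI hu hu1
  change (Measure.pi fun _ : Fin N => unif) (AVOID.ev V u J) ≤ _
  induction J using Finset.induction with
  | empty =>
    simp only [Finset.card_empty, pow_zero, ENNReal.ofReal_one]
    exact prob_le_one
  | insert t J ht ih =>
    have hd' : Disjoint I J := hd.mono_right (Finset.subset_insert t J)
    have htI : t ∉ I := fun h => (Finset.disjoint_left.1 hd h) (Finset.mem_insert_self t J)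
    refine (AVOID.step I J t V u hV hI htI ht).trans ?_
    rw [Finset.card_insert_of_notMem ht, pow_succ', ENNReal.ofReal_mul (by linarith)]
    exact mul_le_mul_right (ih hd') _

end Pool.Agent.Helper72.RA
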