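import Pool.Agent.Helper72.RA.Defs2

set_option autoImplicit false

namespace Pool.Agent.Helper72.RA

open Real Finset MeasureTheory Filter

open scoped Classical

namespace BASE

theorem qi_small (q k : ℕ) (hq : 100 ≤ q) (hk : 1 ≤ k) : 0 < qi q k ∧ qi q k ≤ 1 / 100 := by
  have h1 : (100 : ℝ) ≤ (q : ℝ) ^ k := by
    calc (100 : ℝ) ≤ (q : ℝ) := by exact_mod_cast hq
      _ = (q : ℝ) ^ 1 := (pow_one _).symm
      _ ≤ (q : ℝ) ^ k := pow_le_pow_right₀ (by exact_mod_cast (by omega : 1 ≤ q)) hk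
  unfold qi
  refine ⟨inv_pos.2 (by linarith), ?_⟩
  rw [inv_le_comm₀ (by linarith) (by norm_num)]
  linarith

theorem qi_anti (q k l : ℕ) (hq : 100 ≤ q) (hk : k ≤ l) : qi q l ≤ qi q k := by
  unfold qi
  have h1 : (1 : ℝ) ≤ q := by exact_mod_cast (by omega : 1 ≤ q)
  exact inv_anti₀ (by positivity) (pow_le_pow_right₀ h1 hk)

end BASE

theorem st_BASE (hANG : ST_ANG) : ST_BASE := by
  filter_upwards [hANG, eventually_ge_atTop 100] with q hang hq
  intro m hm1 hm2 D θ hG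
  have hm0 : 0 < m := lt_of_lt_of_le (Nat.pow_pos (by omega)) hm1
  have hm0' : (0 : ℝ) < m := by exact_mod_cast hm0
  have hpi := Real.pi_gt_three
  obtain ⟨c1, c2⟩ := BASE.qi_small q 1969 hq (by norm_num)
  have hreg := (hG.reg 0 (by norm_num) (π - qi q 1969) π (by linarith) le_rfl
    (by
      have := BASE.qi_anti q 1969 1970 hq (by norm_num)
      linarith)).1
  have hpos : (0 : ℝ) < (cnt 0 θ (π - qi q 1969) π : ℝ) := by
    refine lt_of_lt_of_le ?_ hreg
    have : 0 < π - (π - qi q 1969) := by linarith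
    positivity
  have hpos' : 0 < cnt 0 θ (π - qi q 1969) π := by exact_mod_cast hpos
  unfold cnt at hpos'
  obtain ⟨t0, ht0⟩ := Finset.card_pos.1 hpos'
  obtain ⟨_, ht1, ht2⟩ := (Finset.mem_filter.1 ht0).2
  have : Nonempty (Fin (NN m)) := ⟨t0⟩
  obtain ⟨ts, hts⟩ := Finite.exists_max θ
  have hsup : ∀ k : D.K, ∃ ta tb : Fin (NN m), k ≠ D.sv →
      ((D.win k : ℝ) * qi q 1401 ≤ θ ta ∧ θ ta < ((D.win k : ℝ) + 1) * qi q 1401) ∧
      (ta : ℕ) % 4 = 0 ∧ (tb : ℕ) % 4 = 1 ∧ 0 < π - θ ta - θ tb ∧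
      π - θ ta - θ tb < qi q 2530 := by
    intro k
    by_cases hk : k = D.sv
    · exact ⟨ts, ts, fun h => absurd hk h⟩
    · obtain ⟨t, t', h1, h2, h3, h4, h5, h6⟩ := hG.supp (D.win k) ((hang m hm1 hm2 D).1 k hk)
      exact ⟨t, t', fun _ => ⟨⟨h3, h4⟩, h1, h2, h5, h6⟩⟩
  choose ta tb hab using hsup
  refine ⟨ts, ta, tb, hts, ht1.trans (hts t0), fun k hk => (hab k hk).1, fun k hk =>
    (hab k hk).2⟩

namespace TOP

/-- partial inverse of an injection -/
theorem part {S T : Type} (X : Finset S) (H : Finset T) (h : H.card ≤ X.card) :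
    ∃ ep : S → Option T, (∀ k t, ep k = some t → k ∈ X ∧ t ∈ H) ∧
      (∀ k k' t, ep k = some t → ep k' = some t → k = k') ∧ ∀ t ∈ H, ∃ k, ep k = some t := by
  obtain ⟨X', hX', hc⟩ := Finset.exists_subset_card_eq h
  let e : X' ≃ H := Finset.equivOfCardEq hc
  refine ⟨fun k => if hk : k ∈ X' then some (e ⟨k, hk⟩ : T) else none, ?_, ?_, ?_⟩
  · intro k t hk
    by_cases h1 : k ∈ X'
    · simp only [h1, dif_pos, Option.some.injEq] at hk
      exact ⟨hX' h1, hk ▸ (e ⟨k, h1⟩).2⟩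
    · simp [h1] at hk
  · intro k k' t hk hk'
    by_cases h1 : k ∈ X'
    · by_cases h2 : k' ∈ X'
      · simp only [h1, h2, dif_pos, Option.some.injEq] at hk hk'
        have h3 : e ⟨k, h1⟩ = e ⟨k', h2⟩ := Subtype.ext (hk.trans hk'.symm)
        exact congrArg Subtype.val (e.injective h3)
      · simp [h2] at hk'
    · simp [h1] at hk
  · intro t ht
    refine ⟨(e.symm ⟨t, ht⟩ : S), ?_⟩
    simp

theorem count {q m : ℕ} (hq : 100 ≤ q) (_ : q ^ 1000 ≤ m) (hm2 : m ≤ 2 * q ^ 1000)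
    (ht1 : qi q 1350 / 4 ≤ top q) (ht2 : top q ≤ qi q 1350 / 2) (θ : Fin (NN m) → ℝ)
    (hG : Good q m θ) (x y : ℝ) (hx : 0 ≤ x) (hy : y ≤ π) (hxy : y - x = top q) :
    (univ.filter fun t : Fin (NN m) => x ≤ θ t ∧ θ t ≤ y).card ≤ q ^ 655 := by
  have hq1 : (1 : ℝ) ≤ q := by exact_mod_cast (by omega : 1 ≤ q)
  have hpi := Real.pi_gt_three
  have hmm : (m : ℝ) ≤ 2 * (q : ℝ) ^ 1000 := by exact_mod_cast hm2
  have hc : qi q 1970 ≤ y - x := by
    rw [hxy]
    refine le_trans ?_ ht1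
    have h1 := BASE.qi_anti q 1351 1970 hq (by norm_num)
    have h2 : qi q 1351 = qi q 1350 / q := by
      unfold qi
      rw [pow_succ (q : ℝ) 1350, mul_inv]; rfl
    have h3 : qi q 1350 / q ≤ qi q 1350 / 4 := by
      apply div_le_div_of_nonneg_left (BASE.qi_small q 1350 hq (by norm_num)).1.le (by norm_num)
      exact_mod_cast (by omega : 4 ≤ q)
    linarith
  have hj : ∀ j < 4, (cnt j θ x y : ℝ) ≤ (q : ℝ) ^ 650 / 4 := by
    intro j hj
    refine ((hG.reg j hj x y hx hy hc).2).trans ?_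
    rw [hxy]
    have e1 : (m : ℝ) ^ 2 ≤ (2 * (q : ℝ) ^ 1000) ^ 2 := pow_le_pow_left₀ (by positivity) hmm 2
    have e2 : top q / π ≤ qi q 1350 / 6 := by
      rw [div_le_div_iff₀ (by linarith) (by norm_num)]
      have := (BASE.qi_small q 1350 hq (by norm_num)).1
      nlinarith
    have e3 : (m : ℝ) ^ 2 / 8 * (top q / π) ≤ (2 * (q : ℝ) ^ 1000) ^ 2 / 8 * (qi q 1350 / 6) := by
      apply mul_le_mul (by linarith) e2
      · have : 0 < top q := by
          have := (BASE.qi_small q 1350 hq (by norm_num)).1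
          linarith
        positivity
      · positivity
    have e4 : (2 * (q : ℝ) ^ 1000) ^ 2 / 8 * (qi q 1350 / 6) = (q : ℝ) ^ 650 / 12 := by
      have e5 : (q : ℝ) ^ 2000 * qi q 1350 = (q : ℝ) ^ 650 := by
        unfold qi
        have : (q : ℝ) ^ 2000 = (q : ℝ) ^ 650 * (q : ℝ) ^ 1350 := by rw [← pow_add]
        rw [this]
        have h0 : (q : ℝ) ^ 1350 ≠ 0 := by positivity
        field_simp
      have e6 : ((q : ℝ) ^ 1000) ^ 2 = (q : ℝ) ^ 2000 := by rw [← pow_mul]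
      rw [mul_pow, e6]
      linear_combination (4 / 48) * e5
    have h0 : 0 ≤ (q : ℝ) ^ 650 := by positivity
    linarith
  have hsub : (univ.filter fun t : Fin (NN m) => x ≤ θ t ∧ θ t ≤ y) ⊆
      (range 4).biUnion fun j => univ.filter fun t : Fin (NN m) =>
        (t : ℕ) % 4 = j ∧ x ≤ θ t ∧ θ t ≤ y := by
    intro t ht
    have h1 := (Finset.mem_filter.1 ht).2
    rw [Finset.mem_biUnion]
    exact ⟨(t : ℕ) % 4, Finset.mem_range.2 (Nat.mod_lt _ (by norm_num)),
      Finset.mem_filter.2 ⟨Finset.mem_univ _, rfl, h1⟩⟩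
  have h1 : ((univ.filter fun t : Fin (NN m) => x ≤ θ t ∧ θ t ≤ y).card : ℝ) ≤
      (q : ℝ) ^ 655 := by
    calc ((univ.filter fun t : Fin (NN m) => x ≤ θ t ∧ θ t ≤ y).card : ℝ)
        ≤ (((range 4).biUnion fun j => univ.filter fun t : Fin (NN m) =>
          (t : ℕ) % 4 = j ∧ x ≤ θ t ∧ θ t ≤ y).card : ℝ) := by
          exact_mod_cast Finset.card_le_card hsub
      _ ≤ ∑ j ∈ range 4, (cnt j θ x y : ℝ) := by
          have := Finset.card_biUnion_le (s := range 4) (t := fun j => univ.filter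
            fun t : Fin (NN m) => (t : ℕ) % 4 = j ∧ x ≤ θ t ∧ θ t ≤ y)
          unfold cnt
          exact_mod_cast this
      _ ≤ ∑ j ∈ range 4, (q : ℝ) ^ 650 / 4 :=
          Finset.sum_le_sum fun j hj' => hj j (Finset.mem_range.1 hj')
      _ = (q : ℝ) ^ 650 := by
          rw [Finset.sum_const, Finset.card_range, nsmul_eq_mul]; push_cast; ring
      _ ≤ (q : ℝ) ^ 655 := pow_le_pow_right₀ hq1 (by norm_num)
  exact_mod_cast h1

end TOP

theorem st_TOP (hLEV : ST_LEV) : ST_TOP := by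
  filter_upwards [hLEV, eventually_ge_atTop 100] with q hlev hq
  obtain ⟨_, _, _, _, _, _, _, _, _, _, ht1, ht2, _⟩ := hlev
  intro m hm1 hm2 D θ hG S
  have hpi := Real.pi_gt_three
  obtain ⟨c1, c2⟩ := BASE.qi_small q 1350 hq (by norm_num)
  have htp : 0 < top q := by linarith
  have htl : top q ≤ 1 := by linarith
  obtain ⟨ep, p1, p2, p3⟩ := TOP.part (univ.filter fun k : D.K => D.ty k = Ty.xp)
    (univ.filter fun t : Fin (NN m) => π - top q < θ t ∧ t ∉ S.used)
    (by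
      rw [D.card_xp]
      refine le_trans (Finset.card_le_card ?_)
        (TOP.count hq hm1 hm2 ht1 ht2 θ hG (π - top q) π (by linarith) le_rfl (by ring))
      intro t ht
      have h1 := (Finset.mem_filter.1 ht).2
      refine Finset.mem_filter.2 ⟨Finset.mem_univ _, h1.1.le, ?_⟩
      have := hG.top t
      have := (BASE.qi_small q 2005 hq (by norm_num)).1
      linarith)
  obtain ⟨e0, r1, r2, r3⟩ := TOP.part (univ.filter fun k : D.K => D.ty k = Ty.x0)
    (univ.filter fun t : Fin (NN m) => θ t < top q ∧ t ∉ S.used)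
    (by
      rw [D.card_x0]
      refine le_trans (Finset.card_le_card ?_)
        (TOP.count hq hm1 hm2 ht1 ht2 θ hG 0 (top q) le_rfl (by linarith) (by ring))
      intro t ht
      have h1 := (Finset.mem_filter.1 ht).2
      exact Finset.mem_filter.2 ⟨Finset.mem_univ _, (hG.pos t).le, h1.1.le⟩)
  refine ⟨ep, e0, fun k t h => ?_, p2, fun t h h' => p3 t ?_, fun k t h => ?_, r2,
    fun t h h' => r3 t ?_⟩
  · obtain ⟨a, b⟩ := p1 k t h
    exact ⟨(Finset.mem_filter.1 a).2, (Finset.mem_filter.1 b).2⟩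
  · exact Finset.mem_filter.2 ⟨Finset.mem_univ _, h, h'⟩
  · obtain ⟨a, b⟩ := r1 k t h
    exact ⟨(Finset.mem_filter.1 a).2, (Finset.mem_filter.1 b).2⟩
  · exact Finset.mem_filter.2 ⟨Finset.mem_univ _, h, h'⟩

end Pool.Agent.Helper72.RA
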