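import Pool.Agent.Helper72.RA.Defs

set_option autoImplicit false

namespace Pool.Agent.Helper72.RA

open Real

namespace CSOLVE

/-- from `(1 + T^2) N^2 = a b` to the square root equation -/
theorem final (a b N φ : ℝ) (hb : 0 ≤ b) (hN : 0 < N) (hφ : 0 < cos φ)
    (h : a * b = N ^ 2 + tan φ ^ 2 * N ^ 2) : N = cos φ * (√a * √b) := by
  have h1 : a * b = (N / cos φ) ^ 2 := by
    rw [h, Real.tan_eq_sin_div_cos, div_pow, div_pow]
    have := Real.sin_sq_add_cos_sq φ
    field_simp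
    nlinarith [this]
  have h2 : √(a * b) = N / cos φ := by
    rw [h1, Real.sqrt_sq (div_pos hN hφ).le]
  rw [Real.sqrt_mul' a hb] at h2
  rw [h2]
  field_simp

/-- root finding -/
theorem root (G : ℝ → ℝ) (η : ℝ) (hη : 0 < η) (hG : Continuous G) (h1 : 0 ≤ G (-η))
    (h2 : G η ≤ 0) : ∃ ν : ℝ, |ν| ≤ η ∧ G ν = 0 := by
  have h := intermediate_value_Icc' (by linarith : -η ≤ η) hG.continuousOn
  obtain ⟨ν, hν, h0⟩ := h ⟨h2, h1⟩
  exact ⟨ν, abs_le.2 ⟨hν.1, hν.2⟩, h0⟩

end CSOLVE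

theorem st_CPSOLVE : ST_CPSOLVE := by
  intro P B x y φ η hP hB hx hy hφ hφ' hη hη' h1 h2 h3
  have hc : 0 < cos φ := Real.cos_pos_of_mem_Ioo ⟨by linarith, hφ'⟩
  have hxy : 0 < x * y := mul_pos hx hy
  have hPB : 0 < (P + B) * B := mul_pos (by linarith) hB
  have hxye : 0 < x * y * η := mul_pos hxy hη
  have hxye' : x * y * η ≤ x * y := by nlinarith
  rw [abs_le] at h3
  set T := tan φ with hT
  obtain ⟨ν, hν, h0⟩ := CSOLVE.root
    (fun ν => (P + B) ^ 2 * y ^ 2 + B ^ 2 * x ^ 2 - 2 * (P + B) * B * x * y * ν +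
      x ^ 2 * y ^ 2 * (1 - ν ^ 2) - T ^ 2 * (P * B - y ^ 2 + x * y * ν) ^ 2) η hη
    (by fun_prop)
    (by
      have e1 : 0 ≤ P * B - y ^ 2 - x * y * η := by nlinarith
      have e2 : (P * B - y ^ 2 + x * y * -η) ^ 2 ≤ (P * B - y ^ 2) ^ 2 := by
        apply pow_le_pow_left₀ <;> nlinarith
      have e3 : T ^ 2 * (P * B - y ^ 2 + x * y * -η) ^ 2 ≤ T ^ 2 * (P * B - y ^ 2) ^ 2 :=
        mul_le_mul_of_nonneg_left e2 (sq_nonneg T)
      have e4 : 0 ≤ (x * y * η) * ((P + B) * B - x * y * η) := by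
        apply mul_nonneg hxye.le
        have e5 := mul_pos hP hB
        linarith
      have e7 := h3.1
      linarith)
    (by
      have e1 : 0 ≤ P * B - y ^ 2 := by nlinarith
      have e2 : (P * B - y ^ 2) ^ 2 ≤ (P * B - y ^ 2 + x * y * η) ^ 2 := by
        apply pow_le_pow_left₀ <;> nlinarith
      have e3 : T ^ 2 * (P * B - y ^ 2) ^ 2 ≤ T ^ 2 * (P * B - y ^ 2 + x * y * η) ^ 2 :=
        mul_le_mul_of_nonneg_left e2 (sq_nonneg T)
      have e4 : 0 ≤ (x * y * η) * ((P + B) * B) := mul_nonneg hxye.le hPB.le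
      have e7 := h3.2
      have e8 := sq_nonneg (x * y * η)
      linarith)
  refine ⟨ν, hν, ?_⟩
  unfold CP
  rw [abs_le] at hν
  apply CSOLVE.final _ _ _ _ (by positivity) _ hc
  · rw [← hT]
    linear_combination h0
  · have : -(x * y) ≤ x * y * ν := by nlinarith
    linarith

theorem st_C0SOLVE : ST_C0SOLVE := by
  intro P B x y φ η hP hB hx hy hφ hφ' hη hη' h1 h2 h4 h3
  have hc : 0 < cos φ := Real.cos_pos_of_mem_Ioo ⟨by linarith, hφ'⟩
  have hxy : 0 < x * y := mul_pos hx hy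
  have hPB : 0 < (P + B) * B := mul_pos (by linarith) hB
  have hxye : 0 < x * y * η := mul_pos hxy hη
  have hxye' : x * y * η ≤ x * y := by nlinarith
  have hxyh : x * y * η ≤ x * y / 2 := by nlinarith
  rw [abs_le] at h3
  set T := tan φ with hT
  set M0 := P * (P + B) + x ^ 2 with hM0
  have hM0x : x * y ≤ M0 := by nlinarith [sq_nonneg x]
  obtain ⟨ν, hν, h0⟩ := CSOLVE.root
    (fun ν => (P + B) ^ 2 * y ^ 2 + B ^ 2 * x ^ 2 - 2 * (P + B) * B * x * y * ν +
      x ^ 2 * y ^ 2 * (1 - ν ^ 2) - T ^ 2 * (M0 - x * y * ν) ^ 2) η hη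
    (by fun_prop)
    (by
      have e1 : T ^ 2 * (x * y * η) ≤ (P + B) * B / 8 := by
        have : T ^ 2 * (x * y * η) ≤ T ^ 2 * (M0 * (1 / 2)) := by
          apply mul_le_mul_of_nonneg_left _ (sq_nonneg T)
          nlinarith
        nlinarith
      have e4 : 0 ≤ (x * y * η) *
          ((P + B) * B - x * y * η - 2 * T ^ 2 * M0 - T ^ 2 * (x * y * η)) := by
        apply mul_nonneg hxye.le
        have e5 := mul_pos hP hB
        have e6 : x * y * η ≤ (P + B) * B / 8 := by nlinarith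
        linarith
      have e7 := h3.1
      linarith)
    (by
      have e4 : 0 ≤ (x * y * η) * ((P + B) * B - 2 * T ^ 2 * M0) := by
        apply mul_nonneg hxye.le
        linarith
      have e7 := h3.2
      have e8 := sq_nonneg (x * y * η)
      have e9 := sq_nonneg (T * (x * y * η))
      linarith)
  refine ⟨ν, hν, ?_⟩
  unfold C0
  rw [abs_le] at hν
  apply CSOLVE.final _ _ _ _ (by positivity) _ hc
  · rw [← hT]
    rw [hM0] at h0
    linear_combination h0
  · have h7 : x * y * ν ≤ x * y * η := mul_le_mul_of_nonneg_left hν.2 hxy.le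
    have h5 := mul_pos hP (by linarith : 0 < P + B)
    have h6 := sq_nonneg x
    linarith

end Pool.Agent.Helper72.RA
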