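import Pool.Agent.Helper16.RA.Defs

/-!
# MP_c9c10f, arbitrary colourings, `N = 3`: the two finite certificates (statements)

Rows: `ST_WIN` (5 x 5 patterns with potentials), `ST_GRAM` (22 squares on 233 points of
`ℤ[i, (1 + √-7)/2]`), `ST_FIN` (assembly).
-/

set_option autoImplicit false

namespace Pool.Agent.Helper16.RA

/-- the pairs: `(k, i, j, w)` is the pair of the cell (column 0, row i) and the cell (column k, row j) with weight w -/
def Lst : List (ℕ × ℕ × ℕ × ℤ) :=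
  [(0, 0, 1, 76), (0, 0, 2, -61), (0, 0, 3, 222), (0, 0, 4, -327), (0, 1, 2, 776),
   (0, 1, 3, 1262), (0, 1, 4, 222), (0, 2, 3, 776), (0, 2, 4, -61), (0, 3, 4, 76),
   (1, 0, 0, -334), (1, 0, 1, -109), (1, 0, 2, -380), (1, 0, 3, -131), (1, 0, 4, -29),
   (1, 1, 0, -109), (1, 1, 1, 152), (1, 1, 2, 89), (1, 1, 3, 510), (1, 1, 4, -131),
   (1, 2, 0, -380), (1, 2, 1, 89), (1, 2, 2, -235), (1, 2, 3, 89), (1, 2, 4, -380),
   (1, 3, 0, -131), (1, 3, 1, 510), (1, 3, 2, 89), (1, 3, 3, 152), (1, 3, 4, -109),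
   (1, 4, 0, -29), (1, 4, 1, -131), (1, 4, 2, -380), (1, 4, 3, -109), (1, 4, 4, -334),
   (2, 0, 0, -226), (2, 0, 1, -56), (2, 0, 2, -165), (2, 0, 3, -50), (2, 0, 4, 96),
   (2, 1, 0, -56), (2, 1, 1, 188), (2, 1, 2, 166), (2, 1, 3, 413), (2, 1, 4, -50),
   (2, 2, 0, -165), (2, 2, 1, 166), (2, 2, 2, 144), (2, 2, 3, 166), (2, 2, 4, -165),
   (2, 3, 0, -50), (2, 3, 1, 413), (2, 3, 2, 166), (2, 3, 3, 188), (2, 3, 4, -56),
   (2, 4, 0, 96), (2, 4, 1, -50), (2, 4, 2, -165), (2, 4, 3, -56), (2, 4, 4, -226),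
   (3, 0, 0, -296), (3, 0, 1, -50), (3, 0, 2, -83), (3, 0, 3, -231), (3, 0, 4, 100),
   (3, 1, 0, -50), (3, 1, 1, 109), (3, 1, 2, 180), (3, 1, 3, 265), (3, 1, 4, -231),
   (3, 2, 0, -83), (3, 2, 1, 180), (3, 2, 2, 395), (3, 2, 3, 180), (3, 2, 4, -83),
   (3, 3, 0, -231), (3, 3, 1, 265), (3, 3, 2, 180), (3, 3, 3, 109), (3, 3, 4, -50),
   (3, 4, 0, 100), (3, 4, 1, -231), (3, 4, 2, -83), (3, 4, 3, -50), (3, 4, 4, -296),
   (4, 0, 0, -194), (4, 0, 1, -30), (4, 0, 2, -66), (4, 0, 3, -81), (4, 0, 4, 101),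
   (4, 1, 0, -30), (4, 1, 1, -180), (4, 1, 2, 22), (4, 1, 3, 32), (4, 1, 4, -81),
   (4, 2, 0, -66), (4, 2, 1, 22), (4, 2, 2, -127), (4, 2, 3, 22), (4, 2, 4, -66),
   (4, 3, 0, -81), (4, 3, 1, 32), (4, 3, 2, 22), (4, 3, 3, -180), (4, 3, 4, -30),
   (4, 4, 0, 101), (4, 4, 1, -81), (4, 4, 2, -66), (4, 4, 3, -30), (4, 4, 4, -194)]

/-- sums of the weights over `k² + (i - j)² = d` -/
def AD : List (ℕ × ℤ) :=
  [(1, 1105), (2, -80), (4, 1208), (5, -60), (8, 166), (9, 465), (10, -4), (13, -2), (16, -1202), (17, -90), (18, -924), (20, -8), (25, -124), (32, 202)]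

/-- colours as integer signs -/
def sg (b : Bool) : ℤ := if b then 1 else -1

/-- the weighted sum of the products of the colours of the pairs -/
def Qf (b : ℕ → ℕ → Bool) : ℤ :=
  (Lst.map fun t => t.2.2.2 * (sg (b 0 t.2.1) * sg (b t.1 t.2.2.1))).sum

/-- `b k i` = colour of the cell in column `k`, row `i` (columns `0, .., 4`, rows `0, .., 4`): no
monochromatic `m × n` or `n × m` rectangle, `m ∈ {1, 2}`, `n ∈ {1, 2, 3}` -/
def Vld (b : ℕ → ℕ → Bool) : Prop :=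
  ∀ k m i n : ℕ, (((m = 1 ∨ m = 2) ∧ (n = 1 ∨ n = 2 ∨ n = 3)) ∨
      ((n = 1 ∨ n = 2) ∧ (m = 1 ∨ m = 2 ∨ m = 3))) → k + m ≤ 4 → i + n ≤ 4 →
    ¬ (b (k + m) i = b k i ∧ b k (i + n) = b k i ∧ b (k + m) (i + n) = b k i)

/-- row WIN (kernel check of the 6844 patterns; potentials: `/team-store/h16_win_pot.txt`, one line
`c0 c1 c2 c3 h` per state, `c_k = ∑ i, (b k i) 2^i` = code of column `k`) -/
def ST_WIN : Prop := ∃ h : (ℕ → ℕ → Bool) → ℤ, (∀ b, |h b| ≤ 5000) ∧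
  ∀ b, Vld b → Qf b + h (fun k i => b (k + 1) i) - h b ≤ -997

/-- row GRAM (kernel check) -/
def ST_GRAM : Prop := ∀ F : ℝ → ℝ, RPD F →
  (AD.map fun t => (t.2 : ℝ) * F (t.1 : ℝ)).sum ≤ -997 → False

/-- row FIN: the pattern of the frame `(z, u)` is `b k i = c (z + u * (k + i * I))`; apply the
window transfer with `L = Lst.map (fun (k, i, j, w) => (i * I, k + j * I, w))`, `K = -997` and the
potential `(z, u) ↦ h (pattern of (z, u))`; then collect equal distances (`AD`). -/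
def ST_FIN : Prop := ST_WIN → ST_GRAM → ST_CERT3

end Pool.Agent.Helper16.RA
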