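import Pool.Agent.Helper72.RA.Defs2

set_option autoImplicit false

namespace Pool.Agent.Helper72.RA

open Real Finset MeasureTheory Filter

open scoped Classical

namespace FLEX

theorem qi_le (q k : ℕ) (hq : 100 ≤ q) (hk : 1 ≤ k) : 0 < qi q k ∧ qi q k ≤ 1 / 100 := by
  have h1 : (100 : ℝ) ≤ (q : ℝ) ^ k := by
    calc (100 : ℝ) ≤ (q : ℝ) := by exact_mod_cast hq
      _ = (q : ℝ) ^ 1 := (pow_one _).symm
      _ ≤ (q : ℝ) ^ k := pow_le_pow_right₀ (by exact_mod_cast (by omega : 1 ≤ q)) hk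
  unfold qi
  refine ⟨inv_pos.2 (by linarith), ?_⟩
  rw [inv_le_comm₀ (by linarith) (by norm_num)]
  linarith

/-- location of the flexible vertices -/
theorem loc {q m : ℕ} (D : Lay q m) (hq : 100 ≤ q) (k : D.K) (hk : isF D k) :
    ∃ a < nF q, D.pos k = posC q a ∧ 1 ≤ D.pos k ∧ D.pos k ≤ 1 + 3 * (q : ℝ) ^ 20 ∧
      1 ≤ D.rad k ∧ D.rad k ≤ 3 := by
  have hq1 : (1 : ℝ) ≤ q := by exact_mod_cast (by omega : 1 ≤ q)
  rcases hk with hv | ⟨hg, hl⟩
  · obtain ⟨h1, h2, h3⟩ := D.vr k hv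
    have hlev := D.lev_v k hv
    refine ⟨D.lev k, by unfold nF; omega, ?_, ?_, ?_, h2, h3⟩
    · rw [h1, posC, if_pos hlev]
    · rw [h1]; nlinarith [show (0 : ℝ) ≤ (D.lev k : ℝ) * (q : ℝ) ^ 10 by positivity]
    · rw [h1]
      have h4 : (D.lev k : ℝ) ≤ 3 := by exact_mod_cast hlev.le
      have h5 : (q : ℝ) ^ 10 ≤ (q : ℝ) ^ 20 := pow_le_pow_right₀ hq1 (by norm_num)
      have h6 : (D.lev k : ℝ) * (q : ℝ) ^ 10 ≤ 3 * (q : ℝ) ^ 20 :=
        mul_le_mul h4 h5 (by positivity) (by norm_num)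
      linarith
  · obtain ⟨h1, h2, h3⟩ := D.gr k hg
    refine ⟨3 + D.lev k, by unfold nF; omega, ?_, ?_, ?_, h2, by linarith⟩
    · rw [h1, posC, if_neg (by omega), Nat.add_sub_cancel_left]
    · rw [h1]; nlinarith [show (0 : ℝ) ≤ (Pl q (D.lev k) : ℝ) by positivity]
    · rw [h1]
      have h4 : 2 ^ D.lev k < q ^ 11 := Nat.pow_lt_of_lt_clog hl
      have h5 : Pl q (D.lev k) ≤ 3 * q ^ 20 := by
        unfold Pl
        calc 3 * q ^ 9 * 2 ^ D.lev k ≤ 3 * q ^ 9 * q ^ 11 := Nat.mul_le_mul_left _ h4.le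
          _ = 3 * q ^ 20 := by ring
      have h6 : (Pl q (D.lev k) : ℝ) ≤ 3 * (q : ℝ) ^ 20 := by exact_mod_cast h5
      linarith

theorem ddpos {K : Type} (p s : K → ℝ) (n : K → K → ℝ) (i j : K) (hi : 0 < s i) (hj : 0 < s j)
    (hn : |n i j| < 1) : 0 < dd p s n i j := by
  unfold dd
  have h1 := (abs_lt.1 hn).2
  have h2 : 0 < s i * s j := mul_pos hi hj
  have h3 : s i * s j * n i j < s i * s j * 1 := mul_lt_mul_of_pos_left h1 h2
  have h4 := sq_nonneg (p i - p j)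
  have h5 := sq_nonneg (s i - s j)
  nlinarith

end FLEX

theorem st_FLEX (hfam : ST_FAMILY) : ST_FLEX := by
  filter_upwards [hfam, eventually_ge_atTop 100] with q hF hq
  intro m _ _ D p s n hsym hdiag hpos hn i k θ hik hi hk hθ
  have hq1 : (1 : ℝ) ≤ q := by exact_mod_cast (by omega : 1 ≤ q)
  have hq100 : (100 : ℝ) ≤ q := by exact_mod_cast hq
  obtain ⟨a, ha, pa, pa1, pa2, ra1, ra2⟩ := FLEX.loc D hq i hi
  obtain ⟨b, hb, pb, pb1, pb2, rb1, rb2⟩ := FLEX.loc D hq k hk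
  obtain ⟨q860, q860'⟩ := FLEX.qi_le q 860 hq (by norm_num)
  obtain ⟨q955, q955'⟩ := FLEX.qi_le q 955 hq (by norm_num)
  obtain ⟨pi1, si1⟩ := hpos i (Or.inl hi)
  obtain ⟨pk1, sk1⟩ := hpos k (Or.inl hk)
  have hub : ∀ l ≤ LH q, ∃ j, D.ty j = Ty.h ∧ D.pos j = (D.pos i + D.pos k) / 2 ∧
      D.rad j = 1 / 2 + (l : ℝ) * qi q 800 := by
    intro l hl
    rw [pa, pb]
    exact D.hub a ha b hb l hl
  let j : ℕ → D.K := fun l => if hl : l ≤ LH q then (hub l hl).choose else i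
  have hj : ∀ l ≤ LH q, D.ty (j l) = Ty.h ∧ D.pos (j l) = (D.pos i + D.pos k) / 2 ∧
      D.rad (j l) = 1 / 2 + (l : ℝ) * qi q 800 := by
    intro l hl
    simp only [j, dif_pos hl]
    exact (hub l hl).choose_spec
  have hsi : 99 / 100 ≤ s i ∧ s i ≤ 301 / 100 := by
    rw [abs_le] at si1; constructor <;> linarith
  have hsk : 99 / 100 ≤ s k ∧ s k ≤ 301 / 100 := by
    rw [abs_le] at sk1; constructor <;> linarith
  have key := hF ((D.pos i + D.pos k) / 2) ((D.pos i - D.pos k) / 2) (p i) (s i) (p k) (s k)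
    (fun l => p (j l)) (fun l => s (j l)) (fun l => n i (j l)) (fun l => n k (j l)) θ
    (by
      have h20 : 3 * (q : ℝ) ^ 20 / 2 ≤ (q : ℝ) ^ 21 := by
        have : (q : ℝ) ^ 21 = q * (q : ℝ) ^ 20 := by ring
        rw [this]
        have h0 : 0 ≤ (q : ℝ) ^ 20 := by positivity
        nlinarith
      rw [abs_le]
      constructor <;> linarith)
    (by
      have : (D.pos i + D.pos k) / 2 + (D.pos i - D.pos k) / 2 = D.pos i := by ring
      rw [this]; exact pi1)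
    (by
      have : (D.pos i + D.pos k) / 2 - (D.pos i - D.pos k) / 2 = D.pos k := by ring
      rw [this]; exact pk1)
    hsi.1 hsi.2 hsk.1 hsk.2
    (by
      intro l hl
      obtain ⟨h1, h2, h3⟩ := hj l hl
      obtain ⟨h4, h5⟩ := hpos (j l) (Or.inr h1)
      rw [h2] at h4
      rw [h3] at h5
      refine ⟨h4, h5, ?_, ?_⟩
      · rw [hsym i (j l)]; exact hn (j l) i h1 hi
      · rw [hsym k (j l)]; exact hn (j l) k h1 hk)
    (by
      rcases hθ with h | ⟨hr, h1, h2⟩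
      · exact Or.inl h
      · right
        have hr' : D.ty i = Ty.v ∧ D.ty k = Ty.v ∧ D.lev i ≠ D.lev k := by
          by_contra hcon
          exact hr ⟨hi, hk, hcon⟩
        obtain ⟨hv1, hv2, hne⟩ := hr'
        have l1 := D.lev_v i hv1
        have l2 := D.lev_v k hv2
        have e1 := (D.vr i hv1).1
        have e2 := (D.vr k hv2).1
        have h0 : 0 ≤ (q : ℝ) ^ 10 := by positivity
        have e3 : (D.pos i - D.pos k) / 2 = ((D.lev i : ℝ) - (D.lev k : ℝ)) / 2 * (q : ℝ) ^ 10 := by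
          rw [e1, e2]; ring
        have e4 : 1 ≤ |(D.lev i : ℝ) - (D.lev k : ℝ)| ∧ |(D.lev i : ℝ) - (D.lev k : ℝ)| ≤ 2 := by
          generalize D.lev i = x at *
          generalize D.lev k = y at *
          interval_cases x <;> interval_cases y <;> first | exact absurd rfl hne | norm_num
        have e5 : |(D.pos i - D.pos k) / 2| = |(D.lev i : ℝ) - (D.lev k : ℝ)| / 2 * (q : ℝ) ^ 10 := by
          rw [e3, abs_mul, abs_of_nonneg h0, abs_div, abs_of_pos (by norm_num : (0 : ℝ) < 2)]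
        refine ⟨?_, ?_, h1, h2⟩
        · rw [e5]; nlinarith [e4.1]
        · rw [e5]; nlinarith [e4.2])
  obtain ⟨l, hl, l', hl', k1, k2, k3, k4⟩ := key
  have hub' : ∀ l ≤ LH q, 0 < dd p s n i (j l) ∧ 0 < dd p s n k (j l) ∧
      hubN p s n i k (j l) θ = (cos θ * (√((p i - p (j l)) ^ 2 + s i ^ 2 + s (j l) ^ 2 -
        2 * s i * s (j l) * n i (j l)) * √((p k - p (j l)) ^ 2 + s k ^ 2 + s (j l) ^ 2 -
        2 * s k * s (j l) * n k (j l))) - (p i - p (j l)) * (p k - p (j l)) - s (j l) ^ 2 +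
        s i * s (j l) * n i (j l) + s (j l) * s k * n k (j l)) / (s i * s k) := by
    intro l hl
    obtain ⟨h1, h2, h3⟩ := hj l hl
    obtain ⟨h4, h5⟩ := hpos (j l) (Or.inr h1)
    have hr := (D.hr (j l) h1).2.2.1
    have hsj : 0 < s (j l) := by
      rw [abs_le] at h5; linarith
    refine ⟨FLEX.ddpos p s n i (j l) (by linarith [hsi.1]) hsj ?_,
      FLEX.ddpos p s n k (j l) (by linarith [hsk.1]) hsj ?_, ?_⟩
    · rw [hsym i (j l)]
      exact (hn (j l) i h1 hi).trans_lt (by linarith)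
    · rw [hsym k (j l)]
      exact (hn (j l) k h1 hk).trans_lt (by linarith)
    · unfold hubN dd
      rw [hsym (j l) k]
  obtain ⟨d1, d2, d3⟩ := hub' l hl
  obtain ⟨d4, d5, d6⟩ := hub' l' hl'
  refine ⟨j l, j l', (hj l hl).1, (hj l' hl').1, d1, d2, d4, d5, ?_, ?_, ?_, ?_⟩
  · rw [d3]; exact k1
  · rw [d3]; exact k2
  · rw [d6]; exact k3
  · rw [d6]; exact k4

end Pool.Agent.Helper72.RA
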