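import Pool.Agent.Helper16.RA.GS

set_option autoImplicit false
set_option maxRecDepth 100000

namespace Pool.Agent.Helper16.RA

theorem part_C11 : (allP chk dat11 && crossP chk dat11 ([])) = true := by decide +kernel

end Pool.Agent.Helper16.RA
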