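import Pool.Agent.Helper16.RA.GS

set_option autoImplicit false
set_option maxRecDepth 100000

namespace Pool.Agent.Helper16.RA

theorem part_C4 : (allP chk dat4 && crossP chk dat4 (dat5 ++ (dat6 ++ (dat7 ++ (dat8 ++ (dat9 ++ (dat10 ++ (dat11)))))))) = true := by decide +kernel

end Pool.Agent.Helper16.RA
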