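import Pool.Agent.Helper16.RA.GC0
import Pool.Agent.Helper16.RA.GC1
import Pool.Agent.Helper16.RA.GC2
import Pool.Agent.Helper16.RA.GC3
import Pool.Agent.Helper16.RA.GC4
import Pool.Agent.Helper16.RA.GC5
import Pool.Agent.Helper16.RA.GC6
import Pool.Agent.Helper16.RA.GC7
import Pool.Agent.Helper16.RA.GC8
import Pool.Agent.Helper16.RA.GC9
import Pool.Agent.Helper16.RA.GC10
import Pool.Agent.Helper16.RA.GC11

/-! kernel checks of the point set -/

set_option autoImplicit false
set_option maxRecDepth 100000

namespace Pool.Agent.Helper16.RA

theorem all_chk : allP chk dat = true := by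
  unfold dat
  rw [allP_append, part_C0, Bool.true_and]
  rw [allP_append, part_C1, Bool.true_and]
  rw [allP_append, part_C2, Bool.true_and]
  rw [allP_append, part_C3, Bool.true_and]
  rw [allP_append, part_C4, Bool.true_and]
  rw [allP_append, part_C5, Bool.true_and]
  rw [allP_append, part_C6, Bool.true_and]
  rw [allP_append, part_C7, Bool.true_and]
  rw [allP_append, part_C8, Bool.true_and]
  rw [allP_append, part_C9, Bool.true_and]
  rw [allP_append, part_C10, Bool.true_and]
  have h := part_C11
  rw [Bool.and_eq_true] at h
  exact h.1

theorem dat_ok : (dat.all fun a => decide (a.2.length = 21) && decide (a.2.sum < 200000)) = true := by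
  decide +kernel

theorem dat_len : dat.length = 233 := by decide +kernel

end Pool.Agent.Helper16.RA
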