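import Pool.Agent.Helper16.RA.GN0
import Pool.Agent.Helper16.RA.GN1
import Pool.Agent.Helper16.RA.GN2
import Pool.Agent.Helper16.RA.GN3
import Pool.Agent.Helper16.RA.GN4
import Pool.Agent.Helper16.RA.GN5
import Pool.Agent.Helper16.RA.GN6
import Pool.Agent.Helper16.RA.GN7
import Pool.Agent.Helper16.RA.GN8
import Pool.Agent.Helper16.RA.GN9
import Pool.Agent.Helper16.RA.GN10
import Pool.Agent.Helper16.RA.GN11

set_option autoImplicit false
set_option maxRecDepth 100000

namespace Pool.Agent.Helper16.RA

theorem lit_sumN : litN0 + litN1 + litN2 + litN3 + litN4 + litN5 + litN6 + litN7 + litN8 + litN9 + litN10 + litN11 = litN := by decide +kernel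

theorem tot_gN : totS gN dat = litN := by
  rw [← lit_sumN]
  unfold dat
  rw [totS_append, part_N0]
  rw [totS_append, part_N1]
  rw [totS_append, part_N2]
  rw [totS_append, part_N3]
  rw [totS_append, part_N4]
  rw [totS_append, part_N5]
  rw [totS_append, part_N6]
  rw [totS_append, part_N7]
  rw [totS_append, part_N8]
  rw [totS_append, part_N9]
  rw [totS_append, part_N10]
  have h : totS gN dat11 = litN11 := by
    have h1 := part_N11
    unfold partS at h1
    rwa [crossS_nil, add_zero] at h1
  rw [h]
  ring

end Pool.Agent.Helper16.RA
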