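import Pool.Agent.Helper16.RA.GP0
import Pool.Agent.Helper16.RA.GP1
import Pool.Agent.Helper16.RA.GP2
import Pool.Agent.Helper16.RA.GP3
import Pool.Agent.Helper16.RA.GP4
import Pool.Agent.Helper16.RA.GP5
import Pool.Agent.Helper16.RA.GP6
import Pool.Agent.Helper16.RA.GP7
import Pool.Agent.Helper16.RA.GP8
import Pool.Agent.Helper16.RA.GP9
import Pool.Agent.Helper16.RA.GP10
import Pool.Agent.Helper16.RA.GP11

set_option autoImplicit false
set_option maxRecDepth 100000

namespace Pool.Agent.Helper16.RA

theorem lit_sumP : litP0 + litP1 + litP2 + litP3 + litP4 + litP5 + litP6 + litP7 + litP8 + litP9 + litP10 + litP11 = litP := by decide +kernel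

theorem tot_gP : totS gP dat = litP := by
  rw [← lit_sumP]
  unfold dat
  rw [totS_append, part_P0]
  rw [totS_append, part_P1]
  rw [totS_append, part_P2]
  rw [totS_append, part_P3]
  rw [totS_append, part_P4]
  rw [totS_append, part_P5]
  rw [totS_append, part_P6]
  rw [totS_append, part_P7]
  rw [totS_append, part_P8]
  rw [totS_append, part_P9]
  rw [totS_append, part_P10]
  have h : totS gP dat11 = litP11 := by
    have h1 := part_P11
    unfold partS at h1
    rwa [crossS_nil, add_zero] at h1
  rw [h]
  ring

end Pool.Agent.Helper16.RA
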