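import Pool.Agent.Helper16.RA.G3

/-! splitting of the packed sums -/

set_option autoImplicit false

namespace Pool.Agent.Helper16.RA

def crossS (g : Dt → Dt → ℕ) : List Dt → List Dt → ℕ
  | [], _ => 0
  | a :: l, m => rowS g a m + crossS g l m

/-- all pairs `a` before `b` in `l ++ m` with `a ∈ l` -/
def partS (g : Dt → Dt → ℕ) (l m : List Dt) : ℕ := totS g l + crossS g l m

theorem rowS_append (g : Dt → Dt → ℕ) (a : Dt) (l m : List Dt) :
    rowS g a (l ++ m) = rowS g a l + rowS g a m := by
  induction l with
  | nil => simp [rowS]
  | cons b l ih => simp only [List.cons_append, rowS, ih]; ring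

theorem totS_append (g : Dt → Dt → ℕ) (l m : List Dt) :
    totS g (l ++ m) = partS g l m + totS g m := by
  induction l with
  | nil => simp [totS, partS, crossS]
  | cons a l ih =>
    simp only [List.cons_append, totS, ih, partS, crossS, rowS_append]
    ring

theorem crossS_nil (g : Dt → Dt → ℕ) (l : List Dt) : crossS g l [] = 0 := by
  induction l with
  | nil => rfl
  | cons a l ih => simp [crossS, rowS, ih]

def allP (p : Pt → Pt → Bool) : List Dt → Bool
  | [] => true
  | a :: l => (l.all fun b => p a.1 b.1) && allP p l

def crossP (p : Pt → Pt → Bool) (l m : List Dt) : Bool := l.all fun a => m.all fun b => p a.1 b.1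

def chk (x y : Pt) : Bool := okS x y && decide (slot x y < 3136)

theorem allP_append (p : Pt → Pt → Bool) (l m : List Dt) :
    allP p (l ++ m) = ((allP p l && crossP p l m) && allP p m) := by
  induction l with
  | nil => simp [allP, crossP]
  | cons a l ih =>
    simp only [List.cons_append, allP, ih, crossP, List.all_append, List.all_cons]
    ac_rfl

end Pool.Agent.Helper16.RA
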