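import Pool.Agent.Helper16.RA.GP
import Pool.Agent.Helper16.RA.GN
import Pool.Agent.Helper16.RA.GC

/-!
# MP_c9c10f, `N = 3`: the Gram certificate
-/

set_option autoImplicit false
set_option maxRecDepth 100000

namespace Pool.Agent.Helper16.RA

open scoped BigOperators

/-- the window weight at the code `s` -/
def Af (s : ℕ) : ℤ := (AD.map fun t => if 64 * t.1 + 32 = s then t.2 else 0).sum

/-- the rest at the code `s` -/
def hh (P N s : ℕ) : ℤ :=
  2 * ((P / (2 ^ 64) ^ s % 2 ^ 64 : ℕ) : ℤ) - 2 * ((N / (2 ^ 64) ^ s % 2 ^ 64 : ℕ) : ℤ) - 1073741 * Af s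

def inn (P N n : ℕ) : ℕ → ℕ
  | 0 => 0
  | j + 1 => (hh P N (64 * n + j)).natAbs + inn P N n j

def outr (P N : ℕ) : ℕ → ℕ
  | 0 => 0
  | n + 1 => inn P N n 64 + outr P N n

theorem inn_eq (P N n : ℕ) (k : ℕ) :
    inn P N n k = ∑ j ∈ Finset.range k, (hh P N (64 * n + j)).natAbs := by
  induction k with
  | zero => simp [inn]
  | succ k ih => rw [inn, ih, Finset.sum_range_succ, add_comm]

theorem outr_eq (P N n : ℕ) :
    outr P N n = ∑ s ∈ Finset.range (64 * n), (hh P N s).natAbs := by
  induction n with
  | zero => simp [outr]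
  | succ n ih =>
    rw [outr, ih, inn_eq, show 64 * (n + 1) = 64 * n + 64 by ring, Finset.sum_range_add, add_comm]

theorem final_check : outr litP litN 49 + (dat.map fun a => dotN a.2 a.2).sum + 233 * 525000000 <
    997 * 1073741 + 10000 * (dat.map fun a => a.2.sum).sum := by decide +kernel

theorem dotN_le (u : List ℕ) : ∀ v : List ℕ, dotN u v ≤ u.sum * v.sum := by
  induction u with
  | nil => intro v; simp [dotN]
  | cons x u ih =>
    intro v
    cases v with
    | nil => simp [dotN]
    | cons y v =>
      have := ih v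
      simp only [dotN, List.sum_cons]
      nlinarith [Nat.zero_le (x * v.sum), Nat.zero_le (u.sum * y)]

theorem sum_sub (f g : Dt → ℝ) (l : List Dt) :
    (l.map fun b => f b - g b).sum = (l.map f).sum - (l.map g).sum := by
  induction l with
  | nil => simp
  | cons a l ih => simp only [List.map_cons, List.sum_cons, ih]; ring

theorem triR_sub (H G1 G2 : Dt → Dt → ℝ) (p : Pt → Pt → Bool) (l : List Dt) (hl : allP p l = true)
    (h : ∀ a b, p a.1 b.1 = true → H a b = G1 a b - G2 a b) :
    triR H l = triR G1 l - triR G2 l := by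
  induction l with
  | nil => simp [triR]
  | cons a l ih =>
    simp only [allP, Bool.and_eq_true, List.all_eq_true] at hl
    have e : (l.map (H a)).sum = (l.map (G1 a)).sum - (l.map (G2 a)).sum := by
      have : l.map (H a) = l.map (fun b => G1 a b - G2 a b) := by
        apply List.map_congr_left
        intro b hb
        exact h a b (hl.1 b hb)
      rw [this]
      exact sum_sub (G1 a) (G2 a) l
    simp only [triR]
    rw [e, ih hl.2]
    ring

theorem mem_triL (g : Dt → Dt → ℕ) (l : List Dt) (hl : allP chk l = true) (M : ℕ)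
    (hM : ∀ a ∈ l, ∀ b ∈ l, g a b ≤ M) :
    ∀ t ∈ triL g l, t.1 < 3136 ∧ t.2 ≤ M := by
  induction l with
  | nil => intro t ht; simp [triL] at ht
  | cons a l ih =>
    intro t ht
    simp only [allP, Bool.and_eq_true, List.all_eq_true] at hl
    rw [triL, List.mem_append] at ht
    rcases ht with ht | ht
    · rw [List.mem_map] at ht
      obtain ⟨b, hb, rfl⟩ := ht
      have h1 := hl.1 b hb
      simp only [chk, Bool.and_eq_true, decide_eq_true_eq] at h1
      exact ⟨h1.2, hM a List.mem_cons_self b (List.mem_cons_of_mem _ hb)⟩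
    · exact ih hl.2 (fun x hx y hy => hM x (List.mem_cons_of_mem _ hx) y (List.mem_cons_of_mem _ hy)) t ht

theorem length_triL (g : Dt → Dt → ℕ) (l : List Dt) : (triL g l).length ≤ l.length * l.length := by
  induction l with
  | nil => simp [triL]
  | cons a l ih =>
    simp only [triL, List.length_append, List.length_map, List.length_cons]
    nlinarith

theorem sum_lt (g : Dt → Dt → ℕ) (hM : ∀ a ∈ dat, ∀ b ∈ dat, g a b ≤ 2 ^ 40) :
    ((triL g dat).map fun t => t.2).sum < 2 ^ 64 := by
  have h1 := mem_triL g dat all_chk (2 ^ 40) hM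
  have h2 : ((triL g dat).map fun t => t.2).sum ≤ ((triL g dat).map fun t => t.2).length • 2 ^ 40 := by
    apply List.sum_le_card_nsmul
    intro x hx
    rw [List.mem_map] at hx
    obtain ⟨t, ht, rfl⟩ := hx
    exact (h1 t ht).2
  have h3 := length_triL g dat
  rw [dat_len] at h3
  rw [List.length_map, smul_eq_mul] at h2
  calc _ ≤ _ := h2
    _ ≤ (233 * 233) * 2 ^ 40 := Nat.mul_le_mul_right _ h3
    _ < 2 ^ 64 := by norm_num

theorem dat_mem (a : Dt) (ha : a ∈ dat) : a.2.length = 21 ∧ a.2.sum < 200000 := by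
  have h := dat_ok
  rw [List.all_eq_true] at h
  have h1 := h a ha
  simp only [Bool.and_eq_true, decide_eq_true_eq] at h1
  exact h1

theorem AD_sum (f : ℕ → ℝ) : ∑ s ∈ Finset.range 3136, (Af s : ℝ) * f s =
    (AD.map fun t => (t.2 : ℝ) * f (64 * t.1 + 32)).sum := by
  have gen : ∀ L : List (ℕ × ℤ), (∀ t ∈ L, 64 * t.1 + 32 < 3136) →
      ∑ s ∈ Finset.range 3136,
        (((L.map fun t => if 64 * t.1 + 32 = s then t.2 else 0).sum : ℤ) : ℝ) * f s =
      (L.map fun t => (t.2 : ℝ) * f (64 * t.1 + 32)).sum := by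
    intro L hL
    induction L with
    | nil => simp
    | cons t L ih =>
      have h1 := ih (fun u hu => hL u (List.mem_cons_of_mem _ hu))
      have h2 := hL t List.mem_cons_self
      simp only [List.map_cons, List.sum_cons, Int.cast_add, add_mul, Finset.sum_add_distrib]
      rw [h1]
      congr 1
      rw [Finset.sum_eq_single (64 * t.1 + 32)]
      · simp
      · intro s _ hs
        simp [Ne.symm hs]
      · intro h
        exact absurd (Finset.mem_range.mpr h2) h
  exact gen AD (by decide)

theorem st_GRAM : ST_GRAM := by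
  intro F hF hAD
  -- positive definiteness
  have h0 := pd_dot F hF 21 (dat.map fun a => (emb a.1, a.2)) (by
    intro a ha
    rw [List.mem_map] at ha
    obtain ⟨b, hb, rfl⟩ := ha
    exact (dat_mem b hb).1)
  simp only [List.map_map, Function.comp_def] at h0
  have hsym : ∀ u v : List ℕ, dotN u v = dotN v u := by
    intro u
    induction u with
    | nil => intro v; cases v <;> simp [dotN]
    | cons x u ih =>
      intro v
      cases v with
      | nil => simp [dotN]
      | cons y v => simp only [dotN]; rw [ih v, mul_comm]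
  rw [full_eq (fun a b => dR 21 a.2 b.2 * F (Complex.normSq (emb a.1 - emb b.1))) (by
    intro a b
    have e1 : Complex.normSq (emb a.1 - emb b.1) = Complex.normSq (emb b.1 - emb a.1) := by
      rw [← Complex.normSq_neg, neg_sub]
    simp only [dR, hsym a.2 b.2, e1]
    ring) dat] at h0
  rw [triR_sub _ (fun a b => (gP a b : ℝ) * fS F (slot a.1 b.1))
    (fun a b => (gN a b : ℝ) * fS F (slot a.1 b.1)) chk dat all_chk (by
      intro a b hab
      simp only [chk, Bool.and_eq_true] at hab
      rw [fS_slot F a.1 b.1 hab.1]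
      simp only [dR, gP, gN]
      push_cast
      ring)] at h0
  rw [triR_eq, triR_eq, dig_sum _ (fS F) 3136 (fun t ht => (mem_triL gP dat all_chk (2 ^ 40) (by
      intro a ha b hb
      have h1 := (dat_mem a ha).2
      have h2 := (dat_mem b hb).2
      have h3 := dotN_le a.2 b.2
      have h4 : a.2.sum * b.2.sum ≤ 200000 * 200000 := Nat.mul_le_mul h1.le h2.le
      simp only [gP]
      omega) t ht).1) (sum_lt gP (by
      intro a ha b hb
      have h1 := (dat_mem a ha).2
      have h2 := (dat_mem b hb).2
      have h3 := dotN_le a.2 b.2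
      have h4 : a.2.sum * b.2.sum ≤ 200000 * 200000 := Nat.mul_le_mul h1.le h2.le
      simp only [gP]
      omega)),
    dig_sum _ (fS F) 3136 (fun t ht => (mem_triL gN dat all_chk (2 ^ 40) (by
      intro a ha b hb
      have h1 := (dat_mem a ha).2
      have h2 := (dat_mem b hb).2
      simp only [gN]
      omega) t ht).1) (sum_lt gN (by
      intro a ha b hb
      have h1 := (dat_mem a ha).2
      have h2 := (dat_mem b hb).2
      simp only [gN]
      omega)),
    ← totS_eq, ← totS_eq, tot_gP, tot_gN] at h0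
  -- the diagonal
  have hdiag : (dat.map fun a => dR 21 a.2 a.2 * F (Complex.normSq (emb a.1 - emb a.1))).sum =
      (((dat.map fun a => dotN a.2 a.2).sum : ℕ) : ℝ) -
        10000 * (((dat.map fun a => a.2.sum).sum : ℕ) : ℝ) + 233 * 525000000 := by
    have gen : ∀ l : List Dt,
        (l.map fun a => dR 21 a.2 a.2 * F (Complex.normSq (emb a.1 - emb a.1))).sum =
        (((l.map fun a => dotN a.2 a.2).sum : ℕ) : ℝ) -
          10000 * (((l.map fun a => a.2.sum).sum : ℕ) : ℝ) + (l.length : ℝ) * 525000000 := by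
      intro l
      induction l with
      | nil => simp
      | cons a l ih =>
        rw [List.map_cons, List.sum_cons, ih, List.map_cons, List.sum_cons, List.map_cons,
          List.sum_cons, List.length_cons, Nat.cast_add, Nat.cast_add, Nat.cast_add, Nat.cast_one,
          sub_self, map_zero, hF.one]
        unfold dR
        rw [show ((21 : ℕ) : ℝ) = 21 by norm_num]
        ring
    rw [gen dat, dat_len]
    norm_num
  rw [hdiag] at h0
  -- the window inequality
  have hF2 : (AD.map fun t => (t.2 : ℝ) * fS F (64 * t.1 + 32)).sum ≤ -997 := by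
    refine le_trans (le_of_eq ?_) hAD
    congr 1
    apply List.map_congr_left
    intro t _
    have e1 : (64 * t.1 + 32) / 64 = t.1 := by omega
    have e2 : (64 * t.1 + 32) % 64 = 32 := by omega
    simp only [fS, e1, e2]
    norm_num
  rw [← AD_sum] at hF2
  -- the rests
  have hb : ∀ s, |fS F s| ≤ 1 := fun s => hF.bd _
  have h5 : ∑ s ∈ Finset.range 3136, (hh litP litN s : ℝ) * fS F s ≤
      ∑ s ∈ Finset.range 3136, ((hh litP litN s).natAbs : ℝ) := by
    refine Finset.sum_le_sum fun s _ => ?_
    calc (hh litP litN s : ℝ) * fS F s ≤ |(hh litP litN s : ℝ) * fS F s| := le_abs_self _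
      _ = |(hh litP litN s : ℝ)| * |fS F s| := abs_mul _ _
      _ ≤ |(hh litP litN s : ℝ)| * 1 := mul_le_mul_of_nonneg_left (hb s) (abs_nonneg _)
      _ = ((hh litP litN s).natAbs : ℝ) := by
        rw [mul_one, ← Int.cast_abs, Int.abs_eq_natAbs]
        simp
  have h6 : ∑ s ∈ Finset.range 3136, ((hh litP litN s).natAbs : ℝ) = (outr litP litN 49 : ℕ) := by
    rw [outr_eq]
    push_cast
    rfl
  have h7 : ∑ s ∈ Finset.range 3136, (hh litP litN s : ℝ) * fS F s =
      2 * (∑ s ∈ Finset.range 3136, ((litP / (2 ^ 64) ^ s % 2 ^ 64 : ℕ) : ℝ) * fS F s) -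
      2 * (∑ s ∈ Finset.range 3136, ((litN / (2 ^ 64) ^ s % 2 ^ 64 : ℕ) : ℝ) * fS F s) -
      1073741 * ∑ s ∈ Finset.range 3136, (Af s : ℝ) * fS F s := by
    rw [Finset.mul_sum, Finset.mul_sum, Finset.mul_sum, ← Finset.sum_sub_distrib,
      ← Finset.sum_sub_distrib]
    refine Finset.sum_congr rfl fun s _ => ?_
    simp only [hh, Int.cast_sub, Int.cast_mul, Int.cast_natCast, Int.cast_ofNat]
    ring
  have h8 := final_check
  have h9 : ((outr litP litN 49 : ℕ) : ℝ) + (((dat.map fun a => dotN a.2 a.2).sum : ℕ) : ℝ) +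
      233 * 525000000 < 997 * 1073741 + 10000 * (((dat.map fun a => a.2.sum).sum : ℕ) : ℝ) := by
    exact_mod_cast h8
  linarith

end Pool.Agent.Helper16.RA
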