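import Pool.Agent.Helper16.RA.Cert0

/-!
# MP_c9c10f, `N = 3`: general lemmas for the Gram certificate
-/

set_option autoImplicit false

namespace Pool.Agent.Helper16.RA

open scoped BigOperators

/-- a point `(p + q i) + (r + s i) a`, `a = (1 + √-7)/2` -/
abbrev Pt := ℤ × ℤ × ℤ × ℤ

/-- a point with its weights (weight + 5000) in the 21 vectors -/
abbrev Dt := Pt × List ℕ

def q0D (p q r s : ℤ) : ℤ := p * p + q * q + 2 * (r * r + s * s) + p * r + q * s
def q1D (p q r s : ℤ) : ℤ := q * r - p * s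

/-- code of the norm form of a difference vector: `64 N0 + N1 + 32`, `|x - y|² = N0 + N1 √7` -/
def slotD (p q r s : ℤ) : ℕ := (64 * q0D p q r s + q1D p q r s + 32).toNat

def slot (x y : Pt) : ℕ := slotD (x.1 - y.1) (x.2.1 - y.2.1) (x.2.2.1 - y.2.2.1) (x.2.2.2 - y.2.2.2)

/-- the code can be decoded -/
def okD (p q r s : ℤ) : Bool :=
  decide (0 ≤ q0D p q r s) && decide (-32 ≤ q1D p q r s) && decide (q1D p q r s < 32)

def okS (x y : Pt) : Bool := okD (x.1 - y.1) (x.2.1 - y.2.1) (x.2.2.1 - y.2.2.1) (x.2.2.2 - y.2.2.2)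

/-- scalar product of lists of natural numbers -/
def dotN : List ℕ → List ℕ → ℕ
  | x :: xs, y :: ys => x * y + dotN xs ys
  | _, _ => 0

/-- `∑_{b ∈ l} g a b * B ^ slot a b` -/
def rowS (g : Dt → Dt → ℕ) (a : Dt) : List Dt → ℕ
  | [] => 0
  | b :: l => g a b * 2 ^ (64 * slot a.1 b.1) + rowS g a l

/-- the same over all pairs `a` before `b` -/
def totS (g : Dt → Dt → ℕ) : List Dt → ℕ
  | [] => 0
  | a :: l => rowS g a l + totS g l

def gP (a b : Dt) : ℕ := dotN a.2 b.2 + 525000000
def gN (a b : Dt) : ℕ := 5000 * (a.2.sum + b.2.sum)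

noncomputable def emb (x : Pt) : ℂ :=
  ⟨x.1 + x.2.2.1 / 2 - x.2.2.2 * √7 / 2, x.2.1 + x.2.2.2 / 2 + x.2.2.1 * √7 / 2⟩

/-- the function of the code -/
noncomputable def fS (F : ℝ → ℝ) (k : ℕ) : ℝ :=
  F (((k / 64 : ℕ) : ℝ) + (((k % 64 : ℕ) : ℝ) - 32) * √7)

theorem normSq_emb (x y : Pt) : Complex.normSq (emb x - emb y) =
    (q0D (x.1 - y.1) (x.2.1 - y.2.1) (x.2.2.1 - y.2.2.1) (x.2.2.2 - y.2.2.2) : ℝ) +
    (q1D (x.1 - y.1) (x.2.1 - y.2.1) (x.2.2.1 - y.2.2.1) (x.2.2.2 - y.2.2.2) : ℝ) * √7 := by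
  have h7 : √7 * √7 = (7 : ℝ) := Real.mul_self_sqrt (by norm_num)
  simp only [emb, Complex.normSq_apply, Complex.sub_re, Complex.sub_im, q0D, q1D]
  push_cast
  linear_combination (((x.2.2.1 - y.2.2.1 : ℝ)) ^ 2 + ((x.2.2.2 - y.2.2.2 : ℝ)) ^ 2) / 4 * h7

theorem fS_slot (F : ℝ → ℝ) (x y : Pt) (h : okS x y = true) :
    F (Complex.normSq (emb x - emb y)) = fS F (slot x y) := by
  rw [normSq_emb]
  simp only [okS, okD, Bool.and_eq_true, decide_eq_true_eq] at h
  obtain ⟨⟨h0, h1⟩, h2⟩ := h
  unfold fS slot slotD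
  set a := q0D (x.1 - y.1) (x.2.1 - y.2.1) (x.2.2.1 - y.2.2.1) (x.2.2.2 - y.2.2.2)
  set b := q1D (x.1 - y.1) (x.2.1 - y.2.1) (x.2.2.1 - y.2.2.1) (x.2.2.2 - y.2.2.2)
  obtain ⟨n, hn⟩ := Int.eq_ofNat_of_zero_le h0
  obtain ⟨m, hm⟩ := Int.eq_ofNat_of_zero_le (show 0 ≤ b + 32 by omega)
  have e : (64 * a + b + 32).toNat = 64 * n + m := by omega
  have e1 : (64 * n + m) / 64 = n := by omega
  have e2 : (64 * n + m) % 64 = m := by omega
  rw [e, e1, e2]
  have ea : (a : ℝ) = n := by rw [hn]; simp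
  have eb : (b : ℝ) = (m : ℝ) - 32 := by
    have : b = (m : ℤ) - 32 := by omega
    rw [this]; push_cast; ring
  rw [ea, eb]

/-! ### positive definiteness for lists -/

theorem pd_list (F : ℝ → ℝ) (hF : RPD F) (l : List (ℂ × ℝ)) :
    0 ≤ (l.map fun a => (l.map fun b => a.2 * b.2 * F (Complex.normSq (a.1 - b.1))).sum).sum := by
  have h := hF.pd l.length (fun i => (l[i.1]).1) (fun i => (l[i.1]).2)
  have e : (∑ i : Fin l.length, ∑ j : Fin l.length,
      (l[i.1]).2 * (l[j.1]).2 * F (Complex.normSq ((l[i.1]).1 - (l[j.1]).1))) =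
      (l.map fun a => (l.map fun b => a.2 * b.2 * F (Complex.normSq (a.1 - b.1))).sum).sum := by
    rw [← Fin.sum_univ_fun_getElem l
      (fun a => (l.map fun b => a.2 * b.2 * F (Complex.normSq (a.1 - b.1))).sum)]
    refine Finset.sum_congr rfl fun i _ => ?_
    rw [← Fin.sum_univ_fun_getElem l
      (fun b => (l[i.1]).2 * b.2 * F (Complex.normSq ((l[i.1]).1 - b.1)))]
  rw [← e]
  exact h

/-- the scalar product of the weights -/
noncomputable def dR (n : ℕ) (u v : List ℕ) : ℝ :=
  (dotN u v : ℝ) - 5000 * ((u.sum : ℝ) + (v.sum : ℝ)) + n * 5000 ^ 2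

theorem pd_dot (F : ℝ → ℝ) (hF : RPD F) (n : ℕ) : ∀ (l : List (ℂ × List ℕ)),
    (∀ a ∈ l, a.2.length = n) →
    0 ≤ (l.map fun a => (l.map fun b =>
      dR n a.2 b.2 * F (Complex.normSq (a.1 - b.1))).sum).sum := by
  induction n with
  | zero =>
    intro l hl
    apply List.sum_nonneg
    intro x hx
    rw [List.mem_map] at hx
    obtain ⟨a, ha, rfl⟩ := hx
    apply List.sum_nonneg
    intro y hy
    rw [List.mem_map] at hy
    obtain ⟨b, hb, rfl⟩ := hy
    have ea := List.eq_nil_of_length_eq_zero (hl a ha)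
    have eb := List.eq_nil_of_length_eq_zero (hl b hb)
    simp [dR, ea, eb, dotN]
  | succ n ih =>
    intro l hl
    have h1 := pd_list F hF (l.map fun a => (a.1, ((a.2.headD 0 : ℕ) : ℝ) - 5000))
    have h2 := ih (l.map fun a => (a.1, a.2.tail)) (by
      intro a ha
      rw [List.mem_map] at ha
      obtain ⟨b, hb, rfl⟩ := ha
      simp [hl b hb])
    simp only [List.map_map, Function.comp_def] at h1 h2
    have key : (l.map fun a => (l.map fun b =>
        dR (n + 1) a.2 b.2 * F (Complex.normSq (a.1 - b.1))).sum) =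
        (l.map fun a => ((l.map fun b => (((a.2.headD 0 : ℕ) : ℝ) - 5000) *
          (((b.2.headD 0 : ℕ) : ℝ) - 5000) * F (Complex.normSq (a.1 - b.1))).sum +
          (l.map fun b => dR n a.2.tail b.2.tail * F (Complex.normSq (a.1 - b.1))).sum)) := by
      apply List.map_congr_left
      intro a ha
      rw [← List.sum_map_add]
      congr 1
      apply List.map_congr_left
      intro b hb
      obtain ⟨x, u, hu⟩ := List.exists_cons_of_length_eq_add_one (hl a ha)
      obtain ⟨y, v, hv⟩ := List.exists_cons_of_length_eq_add_one (hl b hb)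
      rw [hu, hv]
      simp only [dR, dotN, List.sum_cons, List.headD_cons, List.tail_cons]
      push_cast
      ring
    rw [key, List.sum_map_add]
    exact add_nonneg h1 h2

/-! ### pairs -/

def triL (g : Dt → Dt → ℕ) : List Dt → List (ℕ × ℕ)
  | [] => []
  | a :: l => (l.map fun b => (slot a.1 b.1, g a b)) ++ triL g l

noncomputable def triR (H : Dt → Dt → ℝ) : List Dt → ℝ
  | [] => 0
  | a :: l => (l.map (H a)).sum + triR H l

theorem full_eq (H : Dt → Dt → ℝ) (hs : ∀ a b, H a b = H b a) (l : List Dt) :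
    (l.map fun a => (l.map fun b => H a b).sum).sum = (l.map fun a => H a a).sum + 2 * triR H l := by
  induction l with
  | nil => simp [triR]
  | cons a l ih =>
    have e : (l.map fun c => ((a :: l).map fun b => H c b).sum).sum =
        (l.map (H a)).sum + (l.map fun c => (l.map fun b => H c b).sum).sum := by
      have : (fun c => ((a :: l).map fun b => H c b).sum) =
          (fun c => H a c + (l.map fun b => H c b).sum) := by
        funext c
        simp [hs c a]
      rw [this, List.sum_map_add]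
    rw [List.map_cons, List.sum_cons, e, ih]
    simp only [List.map_cons, List.sum_cons, triR]
    ring

def pack (L : List (ℕ × ℕ)) : ℕ := (L.map fun t => t.2 * (2 ^ 64) ^ t.1).sum

theorem rowS_eq (g : Dt → Dt → ℕ) (a : Dt) (l : List Dt) :
    rowS g a l = pack (l.map fun b => (slot a.1 b.1, g a b)) := by
  induction l with
  | nil => simp [rowS, pack]
  | cons b l ih =>
    rw [rowS, ih]
    simp [pack, pow_mul]

theorem totS_eq (g : Dt → Dt → ℕ) (l : List Dt) : totS g l = pack (triL g l) := by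
  induction l with
  | nil => simp [totS, triL, pack]
  | cons a l ih =>
    rw [totS, ih, rowS_eq, triL]
    simp [pack]

theorem triR_eq (g : Dt → Dt → ℕ) (f : ℕ → ℝ) (l : List Dt) :
    triR (fun a b => (g a b : ℝ) * f (slot a.1 b.1)) l =
      ((triL g l).map fun t => (t.2 : ℝ) * f t.1).sum := by
  induction l with
  | nil => simp [triR, triL]
  | cons a l ih =>
    rw [triR, ih, triL]
    simp [Function.comp_def]

/-! ### digits -/

theorem digit (B : ℕ) (hB : 0 < B) (S : ℕ) : ∀ (c : ℕ → ℕ), (∀ s, c s < B) → ∀ s, s < S →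
    (∑ t ∈ Finset.range S, c t * B ^ t) / B ^ s % B = c s := by
  induction S with
  | zero => intro c _ s hs; omega
  | succ S ih =>
    intro c hc s hs
    have e : ∑ t ∈ Finset.range (S + 1), c t * B ^ t =
        c 0 + B * ∑ t ∈ Finset.range S, c (t + 1) * B ^ t := by
      rw [Finset.sum_range_succ', Finset.mul_sum]
      simp only [pow_zero, mul_one]
      rw [add_comm]
      congr 1
      refine Finset.sum_congr rfl fun t _ => ?_
      ring
    rw [e]
    cases s with
    | zero => simp [Nat.add_mul_mod_self_left, Nat.mod_eq_of_lt (hc 0)]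
    | succ s =>
      rw [pow_succ', ← Nat.div_div_eq_div_mul, Nat.add_mul_div_left _ _ hB,
        Nat.div_eq_of_lt (hc 0), zero_add]
      exact ih (fun t => c (t + 1)) (fun t => hc (t + 1)) s (by omega)

theorem dig_sum (L : List (ℕ × ℕ)) (f : ℕ → ℝ) (S : ℕ) (hS : ∀ t ∈ L, t.1 < S)
    (hb : (L.map fun t => t.2).sum < 2 ^ 64) :
    (L.map fun t => (t.2 : ℝ) * f t.1).sum =
      ∑ s ∈ Finset.range S, ((pack L / (2 ^ 64) ^ s % 2 ^ 64 : ℕ) : ℝ) * f s := by
  set c : ℕ → ℕ := fun s => (L.map fun t => if t.1 = s then t.2 else 0).sum with hc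
  have hcb : ∀ s, c s < 2 ^ 64 := by
    intro s
    refine lt_of_le_of_lt ?_ hb
    apply List.sum_le_sum
    intro t _
    split_ifs <;> simp
  have gen : ∀ (M : List (ℕ × ℕ)), (∀ t ∈ M, t.1 < S) → pack M =
      ∑ s ∈ Finset.range S, (M.map fun t => if t.1 = s then t.2 else 0).sum * (2 ^ 64) ^ s := by
    intro M hM
    induction M with
    | nil => simp [pack]
    | cons t M ih =>
      have h1 := ih (fun u hu => hM u (List.mem_cons_of_mem _ hu))
      have h2 : t.1 < S := hM t List.mem_cons_self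
      have h3 : pack (t :: M) = t.2 * (2 ^ 64) ^ t.1 + pack M := by simp [pack]
      rw [h3, h1]
      simp only [List.map_cons, List.sum_cons, add_mul, Finset.sum_add_distrib]
      congr 1
      rw [Finset.sum_eq_single t.1]
      · simp
      · intro s _ hs
        simp [Ne.symm hs]
      · intro h
        exact absurd (Finset.mem_range.mpr h2) h
  have genf : ∀ (M : List (ℕ × ℕ)), (∀ t ∈ M, t.1 < S) →
      (M.map fun t => (t.2 : ℝ) * f t.1).sum =
      ∑ s ∈ Finset.range S, (((M.map fun t => if t.1 = s then t.2 else 0).sum : ℕ) : ℝ) * f s := by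
    intro M hM
    induction M with
    | nil => simp
    | cons t M ih =>
      have h1 := ih (fun u hu => hM u (List.mem_cons_of_mem _ hu))
      have h2 : t.1 < S := hM t List.mem_cons_self
      rw [List.map_cons, List.sum_cons, h1]
      simp only [List.map_cons, List.sum_cons, Nat.cast_add, add_mul, Finset.sum_add_distrib]
      congr 1
      rw [Finset.sum_eq_single t.1]
      · simp
      · intro s _ hs
        simp [Ne.symm hs]
      · intro h
        exact absurd (Finset.mem_range.mpr h2) h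
  rw [genf L hS]
  refine Finset.sum_congr rfl fun s hs => ?_
  have hd := digit (2 ^ 64) (by norm_num) S c hcb s (Finset.mem_range.mp hs)
  rw [← gen L hS] at hd
  rw [hd]

end Pool.Agent.Helper16.RA
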