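import Pool.Agent.Helper72.RA.Defs

set_option autoImplicit false

namespace Pool.Agent.Helper72.RA

open Real

namespace HNUM

/-- elementary consequences -/
theorem basic (P B w : ℝ) (hP : 100 ≤ P) (hw : 0 < w) (hw' : w ≤ 1 / 1000)
    (h : P ≤ w * B / 200) :
    20000000 ≤ B ∧ P ≤ B / 200000 ∧ B ≤ w * B ^ 2 / 20000 ∧ 1 ≤ w * B ^ 2 / 400000000000 ∧
      P * B ≤ w * B ^ 2 / 200 ∧ P ^ 2 ≤ w * B ^ 2 / 40000000 := by
  have h1 : 20000 ≤ w * B := by linarith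
  have hB0 : 0 < B := by
    by_contra hn
    push Not at hn
    nlinarith
  have h2 : 20000000 ≤ B := by nlinarith
  have h3 : P ≤ B / 200000 := by nlinarith
  have h4 : B ≤ w * B ^ 2 / 20000 := by nlinarith
  have h5 : 1 ≤ w * B ^ 2 / 400000000000 := by nlinarith
  have h6 : P * B ≤ w * B ^ 2 / 200 := by nlinarith
  have h7 : P ^ 2 ≤ w * B ^ 2 / 40000000 := by nlinarith
  exact ⟨h2, h3, h4, h5, h6, h7⟩

theorem tb (P T u2 : ℝ) (hP : 100 ≤ P) (hu : (T * P) ^ 2 = u2) (h : u2 ≤ 1036 / 100) :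
    T ^ 2 * P ≤ 1036 / 10000 ∧ T ^ 2 ≤ 1036 / 1000000 := by
  have h0 := sq_nonneg T
  have h1 : T ^ 2 * P * 100 ≤ T ^ 2 * P * P := by
    apply mul_le_mul_of_nonneg_left hP
    positivity
  have h2 : T ^ 2 * 100 ≤ T ^ 2 * P := mul_le_mul_of_nonneg_left hP h0
  have h3 : T ^ 2 * P * P = u2 := by rw [← hu]; ring
  constructor <;> linarith

end HNUM

theorem st_HNUM (hcp : ST_CPSOLVE) (hc0 : ST_C0SOLVE) : ST_HNUM := by
  intro P B x y φ w hP hw hw' h hx hx' hy hy' hφ hφ' he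
  obtain ⟨b1, b2, b3, b4, b5, b6⟩ := HNUM.basic P B w hP hw hw' h
  have hP0 : 0 < P := by linarith
  have hB0 : 0 < B := by linarith
  have hx0 : 0 < x := by linarith
  have hy0 : 0 < y := by linarith
  set T := tan φ with hT
  rw [abs_le] at he
  have x2 : x ^ 2 ≤ 91204 / 10000 := by nlinarith
  have y2 : y ^ 2 ≤ 12321 / 10000 := by nlinarith
  have hxy : 9801 / 10000 ≤ x * y := by nlinarith
  have hxy' : x * y ≤ 33522 / 10000 := by nlinarith
  have hu : (T * P) ^ 2 ≤ 1036 / 100 := by linarith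
  obtain ⟨t1, t2⟩ := HNUM.tb P T _ hP rfl hu
  set W := w * B ^ 2 with hW
  have hx2y2 : x ^ 2 * y ^ 2 ≤ 1124 / 100 := by
    have : x ^ 2 * y ^ 2 ≤ (91204 / 10000) * (12321 / 10000) :=
      mul_le_mul x2 y2 (sq_nonneg _) (by norm_num)
    linarith
  have hx2y2' : 0 ≤ x ^ 2 * y ^ 2 := by positivity
  have hmain : |B ^ 2 * (x ^ 2 + y ^ 2 - (T * P) ^ 2)| ≤ 6 * W := by
    rw [abs_mul, abs_of_nonneg (sq_nonneg B), hW]
    have : |x ^ 2 + y ^ 2 - (T * P) ^ 2| ≤ 6 * w := abs_le.2 he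
    calc B ^ 2 * |x ^ 2 + y ^ 2 - (T * P) ^ 2| ≤ B ^ 2 * (6 * w) :=
          mul_le_mul_of_nonneg_left this (sq_nonneg _)
      _ = 6 * (w * B ^ 2) := by ring
  rw [abs_le] at hmain
  have hR : 784 / 100 * W ≤ (P + B) * B * x * y * (8 * w) := by
    have e1 : B ^ 2 ≤ (P + B) * B := by nlinarith
    have e2 : B ^ 2 * (9801 / 10000) ≤ (P + B) * B * (x * y) :=
      mul_le_mul e1 hxy (by norm_num) (by positivity)
    have e3 : B ^ 2 * (9801 / 10000) * (8 * w) ≤ (P + B) * B * (x * y) * (8 * w) :=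
      mul_le_mul_of_nonneg_right e2 (by positivity)
    have e4 : 0 < w * B ^ 2 := by positivity
    calc 784 / 100 * W ≤ B ^ 2 * (9801 / 10000) * (8 * w) := by rw [hW]; linarith
      _ ≤ (P + B) * B * (x * y) * (8 * w) := e3
      _ = (P + B) * B * x * y * (8 * w) := by ring
  have c1 : P * B * y ^ 2 ≤ W / 200 * (12321 / 10000) :=
    mul_le_mul b5 y2 (sq_nonneg _) (by positivity)
  have c1' : 0 ≤ P * B * y ^ 2 := by positivity
  have c2 : P ^ 2 * y ^ 2 ≤ W / 40000000 * (12321 / 10000) :=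
    mul_le_mul b6 y2 (sq_nonneg _) (by positivity)
  have c2' : 0 ≤ P ^ 2 * y ^ 2 := by positivity
  have d0 : 0 ≤ T ^ 2 := sq_nonneg T
  refine ⟨hcp P B x y φ (8 * w) hP0 hB0 hx0 hy0 hφ hφ' (by positivity) (by linarith) ?_ ?_ ?_,
    hc0 P B x y φ (8 * w) hP0 hB0 hx0 hy0 hφ hφ' (by positivity) (by linarith) ?_ ?_ ?_ ?_⟩
  · have : 100 * 20000000 ≤ P * B := mul_le_mul hP b1 (by norm_num) hP0.le
    linarith
  · have : (20000000 : ℝ) ^ 2 ≤ B ^ 2 := pow_le_pow_left₀ (by norm_num) b1 2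
    linarith
  · have c3 : T ^ 2 * P * (B * y ^ 2) ≤ (1036 / 10000) * (B * (12321 / 10000)) := by
      apply mul_le_mul t1 _ (by positivity) (by norm_num)
      exact mul_le_mul_of_nonneg_left y2 hB0.le
    have c3' : 0 ≤ T ^ 2 * P * (B * y ^ 2) := by positivity
    have c4 : T ^ 2 * (y ^ 2 * y ^ 2) ≤ (1036 / 1000000) *
        ((12321 / 10000) * (12321 / 10000)) := by
      apply mul_le_mul t2 _ (by positivity) (by norm_num)
      exact mul_le_mul y2 y2 (sq_nonneg _) (by norm_num)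
    have c4' : 0 ≤ T ^ 2 * (y ^ 2 * y ^ 2) := by positivity
    have key : (P + B) ^ 2 * y ^ 2 + B ^ 2 * x ^ 2 + x ^ 2 * y ^ 2 -
        T ^ 2 * (P * B - y ^ 2) ^ 2 = B ^ 2 * (x ^ 2 + y ^ 2 - (T * P) ^ 2) +
        2 * (P * B * y ^ 2) + P ^ 2 * y ^ 2 + x ^ 2 * y ^ 2 +
        2 * (T ^ 2 * P * (B * y ^ 2)) - T ^ 2 * (y ^ 2 * y ^ 2) := by ring
    rw [key, abs_le]
    constructor <;> linarith
  · have : 100 * 20000000 ≤ P * B := mul_le_mul hP b1 (by norm_num) hP0.le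
    have := sq_nonneg P
    linarith
  · have : (20000000 : ℝ) ^ 2 ≤ B ^ 2 := pow_le_pow_left₀ (by norm_num) b1 2
    linarith
  · have e1 : T ^ 2 * P * (P + B) ≤ (1036 / 10000) * (P + B) :=
      mul_le_mul_of_nonneg_right t1 (by positivity)
    have e2 : T ^ 2 * x ^ 2 ≤ (1036 / 1000000) * (91204 / 10000) :=
      mul_le_mul t2 x2 (sq_nonneg _) (by norm_num)
    have e3 : (P + B) * 20000000 ≤ (P + B) * B :=
      mul_le_mul_of_nonneg_left b1 (by positivity)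
    linarith
  · have v1 : |y ^ 2 - (T * P) ^ 2| ≤ 1036 / 100 := by
      rw [abs_le]
      have := sq_nonneg y
      have := sq_nonneg (T * P)
      constructor <;> linarith
    have v2 : |P * B * (y ^ 2 - (T * P) ^ 2)| ≤ W / 200 * (1036 / 100) := by
      rw [abs_mul, abs_of_nonneg (by positivity : 0 ≤ P * B)]
      exact mul_le_mul b5 v1 (abs_nonneg _) (by positivity)
    have v3 : |P ^ 2 * (y ^ 2 - (T * P) ^ 2)| ≤ W / 40000000 * (1036 / 100) := by
      rw [abs_mul, abs_of_nonneg (sq_nonneg P)]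
      exact mul_le_mul b6 v1 (abs_nonneg _) (by positivity)
    rw [abs_le] at v2 v3
    have c3 : T ^ 2 * P * ((P + B) * x ^ 2) ≤ (1036 / 10000) * ((P + B) * (91204 / 10000)) := by
      apply mul_le_mul t1 _ (by positivity) (by norm_num)
      exact mul_le_mul_of_nonneg_left x2 (by positivity)
    have c3' : 0 ≤ T ^ 2 * P * ((P + B) * x ^ 2) := by positivity
    have c4 : T ^ 2 * (x ^ 2 * x ^ 2) ≤ (1036 / 1000000) *
        ((91204 / 10000) * (91204 / 10000)) := by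
      apply mul_le_mul t2 _ (by positivity) (by norm_num)
      exact mul_le_mul x2 x2 (sq_nonneg _) (by norm_num)
    have c4' : 0 ≤ T ^ 2 * (x ^ 2 * x ^ 2) := by positivity
    have key : (P + B) ^ 2 * y ^ 2 + B ^ 2 * x ^ 2 + x ^ 2 * y ^ 2 -
        T ^ 2 * (P * (P + B) + x ^ 2) ^ 2 = B ^ 2 * (x ^ 2 + y ^ 2 - (T * P) ^ 2) +
        2 * (P * B * (y ^ 2 - (T * P) ^ 2)) + P ^ 2 * (y ^ 2 - (T * P) ^ 2) +
        x ^ 2 * y ^ 2 - 2 * (T ^ 2 * P * ((P + B) * x ^ 2)) -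
        T ^ 2 * (x ^ 2 * x ^ 2) := by ring
    rw [key, abs_le]
    constructor <;> linarith

end Pool.Agent.Helper72.RA
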