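import Pool.Agent.Helper72.RA.Defs2

set_option autoImplicit false

namespace Pool.Agent.Helper72.RA

open Real Finset MeasureTheory Filter

open scoped Classical

namespace HOST

theorem qi9 (q : ℕ) (hq : 100 ≤ q) : 0 < qi q 9 ∧ qi q 9 ≤ 1 / 100 := by
  have h1 : (100 : ℝ) ≤ (q : ℝ) ^ 9 := by
    calc (100 : ℝ) ≤ (q : ℝ) := by exact_mod_cast hq
      _ = (q : ℝ) ^ 1 := (pow_one _).symm
      _ ≤ (q : ℝ) ^ 9 := pow_le_pow_right₀ (by exact_mod_cast (by omega : 1 ≤ q)) (by norm_num)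
  unfold qi
  refine ⟨inv_pos.2 (by linarith), ?_⟩
  rw [inv_le_comm₀ (by linarith) (by norm_num)]
  linarith

theorem phi_range (q : ℕ) (hq : 100 ≤ q) (x : ℝ)
    (h : (top q ≤ x ∧ x < qi q 9) ∨ (top q ≤ π - x ∧ π - x < qi q 9)) :
    top q ≤ phi x ∧ phi x < qi q 9 ∧ x ≠ 1 := by
  obtain ⟨h1, h2⟩ := qi9 q hq
  unfold phi
  rcases h with h | h
  · rw [if_pos (by linarith)]
    exact ⟨h.1, h.2, by intro h3; linarith [h.2]⟩
  · have h3 := Real.pi_gt_three
    rw [if_neg (by linarith)]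
    exact ⟨h.1, h.2, by intro h4; linarith [h.2]⟩

end HOST

theorem st_HOST (hHALL : ST_HALL) (hHLEV : ST_HLEV) (hHSOL : ST_HSOL) (hHDEG : ST_HDEG)
    (hHCNT : ST_HCNT) (hHSUM : ST_HSUM) : ST_HOST := by
  filter_upwards [hHLEV, hHSOL, hHDEG, hHCNT, hHSUM, eventually_ge_atTop 100] with q hlev hsol
    hdeg hcnt hsum hq
  intro m hm1 hm2 D θ hgood b p s hb hv hg Md hMd
  have hq0 : (0 : ℝ) < q := by exact_mod_cast (by omega : 0 < q)
  have hm0 : 0 < m := lt_of_lt_of_le (Nat.pow_pos (by omega)) hm1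
  have hm0' : (0 : ℝ) < m := by exact_mod_cast hm0
  have hphi : ∀ t ∈ Md, top q ≤ phi (θ t) ∧ phi (θ t) < qi q 9 ∧ θ t ≠ 1 := fun t ht =>
    HOST.phi_range q hq (θ t) (hMd t ht)
  -- levels
  have hu : ∀ t : Fin (NN m), ∃ u ≤ UU q, t ∈ Md →
      3 / 2 ≤ phi (θ t) * (Pl q u : ℝ) ∧ phi (θ t) * (Pl q u : ℝ) < 3 := by
    intro t
    by_cases ht : t ∈ Md
    · obtain ⟨u, h1, h2, h3⟩ := hlev (phi (θ t)) (hphi t ht).1 (hphi t ht).2.1
      exact ⟨u, h1, fun _ => ⟨h2, h3⟩⟩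
    · exact ⟨0, Nat.zero_le _, fun h => absurd h ht⟩
  choose lv hlv1 hlv2 using hu
  have hP : ∀ u, (0 : ℝ) < (Pl q u : ℝ) := by
    intro u
    have : 0 < Pl q u := by unfold Pl; positivity
    exact_mod_cast this
  have hw : ∀ u ≤ UU q, 0 < wH q m u := by
    intro u hu
    have := (hsol m hm1 hm2 u hu).1.1
    have h2 : 0 < (q : ℝ) / m := div_pos hq0 hm0'
    linarith
  -- data of the high vertices
  have hgg : ∀ g : D.K, D.ty g = Ty.g →
      |p g - (1 + (Pl q (D.lev g) : ℝ))| ≤ (1 + (Pl q (D.lev g) : ℝ)) / 1000 ∧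
      998 / 1000 ≤ s g ∧ s g ≤ 1102 / 1000 := by
    intro g hgt
    obtain ⟨h1, h2⟩ := hg g hgt
    obtain ⟨h3, h4, h5⟩ := D.gr g hgt
    rw [h3] at h1
    rw [abs_le] at h2
    exact ⟨h1, by linarith, by linarith⟩
  -- allowed pairs
  let A : {t // t ∈ Md} → Finset (D.K × D.K) := fun t =>
    univ.filter fun e : D.K × D.K => D.ty e.1 = Ty.g ∧ D.lev e.1 = lv t.1 ∧ D.ty e.2 = Ty.v ∧
      D.lev e.2 = 0 ∧ |D.rad e.2 - SH (p e.1) (s e.1) (phi (θ t.1))| ≤ wH q m (lv t.1)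
  have hA : ∀ t : {t // t ∈ Md}, (q : ℝ) * m / Pl q (lv t.1) * (wH q m (lv t.1) * m / 5) ≤
      ((A t).card : ℝ) := by
    intro t
    have ht := t.2
    set u := lv t.1 with hudef
    have huU : u ≤ UU q := hlv1 t.1
    obtain ⟨hp1, hp2⟩ := hlv2 t.1 ht
    let G : Finset D.K := univ.filter fun g => D.ty g = Ty.g ∧ D.lev g = u
    let X : D.K → Finset D.K := fun g => univ.filter fun x => D.ty x = Ty.v ∧
      D.lev x = 0 ∧ |D.rad x - SH (p g) (s g) (phi (θ t.1))| ≤ wH q m u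
    have hsub : (G.sigma X).card ≤ (A t).card := by
      apply Finset.card_le_card_of_injOn (fun e => (e.1, e.2))
      · rintro ⟨g, x⟩ hx
        simp only [Finset.coe_sigma, Set.mem_sigma_iff, Finset.mem_coe, G, X, Finset.mem_filter,
          Finset.mem_univ, true_and] at hx
        simp only [A, Finset.coe_filter, Finset.mem_univ, true_and, Set.mem_ofPred_eq]
        exact ⟨hx.1.1, hx.1.2, hx.2.1, hx.2.2.1, hx.2.2.2⟩
      · rintro ⟨g, x⟩ _ ⟨g', x'⟩ _ h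
        simp only [Prod.mk.injEq] at h
        obtain ⟨h1, h2⟩ := h
        subst h1; subst h2; rfl
    have hX : ∀ g ∈ G, wH q m u * m / 5 ≤ ((X g).card : ℝ) := by
      intro g hgG
      simp only [G, Finset.mem_filter, Finset.mem_univ, true_and] at hgG
      obtain ⟨g1, g2, g3⟩ := hgg g hgG.1
      rw [hgG.2] at g1
      obtain ⟨⟨w1, w2⟩, h2⟩ := hsol m hm1 hm2 u huU
      obtain ⟨⟨s1, s2⟩, _⟩ := h2 b (p g) (s g) (phi (θ t.1)) hb g1 g2 g3 hp1 hp2
      exact D.dens _ _ s1 s2 w1 (by linarith)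
    have hG : (q : ℝ) * m / Pl q u ≤ (G.card : ℝ) := D.card_g1 u huU
    have hcard : ((G.sigma X).card : ℝ) = ∑ g ∈ G, ((X g).card : ℝ) := by
      rw [Finset.card_sigma]; push_cast; rfl
    have h0 : 0 ≤ wH q m u * m / 5 := by
      have := hw u huU
      positivity
    calc (q : ℝ) * m / Pl q u * (wH q m u * m / 5) ≤ (G.card : ℝ) * (wH q m u * m / 5) :=
          mul_le_mul_of_nonneg_right hG h0
      _ = ∑ _g ∈ G, (wH q m u * m / 5) := by rw [Finset.sum_const, nsmul_eq_mul]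
      _ ≤ ∑ g ∈ G, ((X g).card : ℝ) := Finset.sum_le_sum hX
      _ = ((G.sigma X).card : ℝ) := hcard.symm
      _ ≤ ((A t).card : ℝ) := by exact_mod_cast hsub
  have hApos : ∀ t : {t // t ∈ Md}, 0 < (q : ℝ) * m / Pl q (lv t.1) *
      (wH q m (lv t.1) * m / 5) := by
    intro t
    have := hw _ (hlv1 t.1)
    have := hP (lv t.1)
    positivity
  have hbound : ∀ (g x : D.K), ∑ t ∈ univ.filter (fun t : {t // t ∈ Md} => (g, x) ∈ A t),
      ((A t).card : ℝ)⁻¹ ≤ 1 := by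
    intro g x
    by_cases hall : ∃ t : {t // t ∈ Md}, (g, x) ∈ A t
    swap
    · rw [Finset.sum_eq_zero]
      · norm_num
      · intro t ht
        exact absurd ⟨t, (Finset.mem_filter.1 ht).2⟩ hall
    obtain ⟨t0, ht0⟩ := hall
    have ht0' := (Finset.mem_filter.1 ht0).2
    simp only at ht0'
    set u := D.lev g with hudef
    have huU : u ≤ UU q := by rw [ht0'.2.1]; exact hlv1 t0.1
    have hwu := hw u huU
    have hPu := hP u
    have hterm : ∀ t ∈ univ.filter (fun t : {t // t ∈ Md} => (g, x) ∈ A t),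
        ((A t).card : ℝ)⁻¹ ≤ ((q : ℝ) * m / Pl q u * (wH q m u * m / 5))⁻¹ := by
      intro t ht
      have h1 := (Finset.mem_filter.1 (Finset.mem_filter.1 ht).2).2
      simp only at h1
      have h2 := hA t
      have h3 := hApos t
      rw [← h1.2.1] at h2 h3
      exact inv_anti₀ h3 h2
    obtain ⟨g1, g2, g3⟩ := hgg g ht0'.1
    obtain ⟨_, x1, x2⟩ := D.vr x ht0'.2.2.1
    have hdg := hdeg m hm1 hm2 u huU θ hgood (p g) (s g) (D.rad x) g1 g2 g3 x1 x2
    have hnum : (((univ.filter (fun t : {t // t ∈ Md} => (g, x) ∈ A t)).card : ℕ) : ℝ) ≤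
        (m : ℝ) ^ 2 * wH q m u / (Pl q u : ℝ) := by
      refine le_trans ?_ hdg
      norm_cast
      apply Finset.card_le_card_of_injOn (fun t => t.1)
      · intro t ht
        have h1 := (Finset.mem_filter.1 (Finset.mem_filter.1 (Finset.mem_coe.1 ht)).2).2
        simp only at h1
        obtain ⟨h3, h4⟩ := hlv2 t.1 t.2
        rw [← h1.2.1] at h3 h4
        simp only [Finset.coe_filter, Finset.mem_univ, true_and, Set.mem_ofPred_eq]
        refine ⟨h3, h4, ?_⟩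
        have := h1.2.2.2.2
        rw [← h1.2.1] at this
        exact this
      · intro t _ t' _ h
        exact Subtype.ext h
    calc ∑ t ∈ univ.filter (fun t : {t // t ∈ Md} => (g, x) ∈ A t), ((A t).card : ℝ)⁻¹
        ≤ ∑ t ∈ univ.filter (fun t : {t // t ∈ Md} => (g, x) ∈ A t),
          ((q : ℝ) * m / Pl q u * (wH q m u * m / 5))⁻¹ := Finset.sum_le_sum hterm
      _ = (((univ.filter (fun t : {t // t ∈ Md} => (g, x) ∈ A t)).card : ℕ) : ℝ) *
          ((q : ℝ) * m / Pl q u * (wH q m u * m / 5))⁻¹ := by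
          rw [Finset.sum_const, nsmul_eq_mul]
      _ ≤ (m : ℝ) ^ 2 * wH q m u / (Pl q u : ℝ) *
          ((q : ℝ) * m / Pl q u * (wH q m u * m / 5))⁻¹ := by
          apply mul_le_mul_of_nonneg_right hnum
          positivity
      _ = 5 / q := by field_simp
      _ ≤ 1 := by
          rw [div_le_one hq0]
          exact_mod_cast (by omega : 5 ≤ q)
  obtain ⟨f, hf1, hf2⟩ := hHALL {t // t ∈ Md} (D.K × D.K) A
    (by
      intro t
      have h1 := hA t
      have h2 := hApos t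
      have h3 : (0 : ℝ) < ((A t).card : ℝ) := by linarith
      exact Finset.card_pos.1 (by exact_mod_cast h3))
    (by
      rintro ⟨g, x⟩
      convert hbound g x)
  -- the pair of a target
  have hprop : ∀ t : Fin (NN m), ∃ (g x : D.K) (ν : ℝ), t ∈ Md →
      (∃ ht : t ∈ Md, f ⟨t, ht⟩ = (g, x)) ∧ D.ty g = Ty.g ∧ D.ty x = Ty.v ∧ D.lev x = 0 ∧
      |ν| ≤ 8 * wH q m (lv t) ∧ p x < p g ∧ p g < b ∧
      (θ t < 1 → C0 (p g - p x) (b - p g) (s x) (s g) ν (θ t)) ∧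
      (1 < θ t → CP (p g - p x) (b - p g) (s x) (s g) ν (π - θ t)) := by
    intro t
    by_cases ht : t ∈ Md
    swap
    · exact ⟨D.sv, D.sv, 0, fun h => absurd h ht⟩
    have h1 := (Finset.mem_filter.1 (hf2 ⟨t, ht⟩)).2
    set g := (f ⟨t, ht⟩).1 with hgdef
    set x := (f ⟨t, ht⟩).2 with hxdef
    have h2 : f ⟨t, ht⟩ = (g, x) := rfl
    obtain ⟨a1, a2, a3, a4, a5⟩ := h1
    simp only at a2 a5
    obtain ⟨g1, g2, g3⟩ := hgg g a1
    rw [a2] at g1
    obtain ⟨hp1, hp2⟩ := hlv2 t ht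
    obtain ⟨_, x1, x2⟩ := D.vr x a3
    obtain ⟨v1, v2⟩ := hv x a3 a4
    obtain ⟨_, h3⟩ := hsol m hm1 hm2 (lv t) (hlv1 t)
    obtain ⟨_, h4⟩ := h3 b (p g) (s g) (phi (θ t)) hb g1 g2 g3 hp1 hp2
    obtain ⟨h5, h6, ⟨ν1, h7, h8⟩, ν2, h9, h10⟩ := h4 (p x) (s x) (D.rad x) v1 v2 x1 x2 a5
    by_cases h11 : θ t < 1
    · refine ⟨g, x, ν2, fun _ => ⟨⟨ht, h2⟩, a1, a3, a4, h9, h5, h6, fun _ => ?_, fun h => ?_⟩⟩
      · have : phi (θ t) = θ t := by rw [phi, if_pos h11]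
        rw [this] at h10
        exact h10
      · exact absurd h (by linarith)
    · refine ⟨g, x, ν1, fun _ => ⟨⟨ht, h2⟩, a1, a3, a4, h7, h5, h6, fun h => ?_, fun _ => ?_⟩⟩
      · exact absurd h h11
      · have : phi (θ t) = π - θ t := by rw [phi, if_neg h11]
        rw [this] at h8
        exact h8
  choose hgf hxf ν hall using hprop
  refine ⟨hgf, hxf, ν, fun t ht => ?_, fun t ht t' ht' e1 e2 => ?_, fun t ht => ?_, ?_,
    fun t ht => ?_⟩
  · obtain ⟨_, a1, a2, a3, _⟩ := hall t ht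
    exact ⟨a1, a2, a3⟩
  · obtain ⟨⟨h1, h2⟩, _⟩ := hall t ht
    obtain ⟨⟨h3, h4⟩, _⟩ := hall t' ht'
    rw [e1, e2, ← h4] at h2
    have := hf1 h2
    exact congrArg Subtype.val this
  · obtain ⟨_, _, _, _, a4, _⟩ := hall t ht
    have := (hsol m hm1 hm2 (lv t) (hlv1 t)).1.2
    linarith
  · have h1 : ∀ t ∈ Md, ν t ^ 2 ≤ (8 * wH q m (lv t)) ^ 2 := by
      intro t ht
      obtain ⟨_, _, _, _, a4, _⟩ := hall t ht
      rw [← sq_abs]
      exact pow_le_pow_left₀ (abs_nonneg _) a4 2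
    have h2 : ∀ t ∈ Md, lv t ∈ range (UU q + 1) := by
      intro t _
      exact Finset.mem_range.2 (Nat.lt_succ_of_le (hlv1 t))
    calc ∑ t ∈ Md, ν t ^ 2 ≤ ∑ t ∈ Md, (8 * wH q m (lv t)) ^ 2 := Finset.sum_le_sum h1
      _ = ∑ u ∈ range (UU q + 1), ∑ t ∈ Md with lv t = u, (8 * wH q m (lv t)) ^ 2 :=
          (Finset.sum_fiberwise_of_maps_to h2 _).symm
      _ ≤ ∑ u ∈ range (UU q + 1), (m : ℝ) ^ 2 / (Pl q u : ℝ) * (8 * wH q m u) ^ 2 := by
          apply Finset.sum_le_sum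
          intro u hu
          have hu' : u ≤ UU q := Nat.le_of_lt_succ (Finset.mem_range.1 hu)
          have e1 : ∑ t ∈ Md with lv t = u, (8 * wH q m (lv t)) ^ 2 =
              ((Md.filter fun t => lv t = u).card : ℝ) * (8 * wH q m u) ^ 2 := by
            rw [← nsmul_eq_mul, ← Finset.sum_const]
            apply Finset.sum_congr rfl
            intro t ht
            rw [(Finset.mem_filter.1 ht).2]
          rw [e1]
          apply mul_le_mul_of_nonneg_right _ (sq_nonneg _)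
          refine le_trans ?_ (hcnt m hm1 hm2 u hu' θ hgood)
          norm_cast
          apply Finset.card_le_card
          intro t ht
          obtain ⟨ht1, ht2⟩ := Finset.mem_filter.1 ht
          obtain ⟨h3, h4⟩ := hlv2 t ht1
          rw [ht2] at h3 h4
          exact Finset.mem_filter.2 ⟨Finset.mem_univ _, h3, h4⟩
      _ ≤ 1 / 1000 := hsum m hm1 hm2
  · obtain ⟨_, _, _, _, _, a5, a6, a7, a8⟩ := hall t ht
    exact ⟨a5, a6, a7, a8⟩

end Pool.Agent.Helper72.RA
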