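import Pool.Agent.Helper72.RA.Defs2

set_option autoImplicit false

namespace Pool.Agent.Helper72.RA

open Real Finset MeasureTheory Filter

open scoped Classical

namespace OCOUNT

/-- the vertices which are not flexible (and not special) -/
theorem nf {q m : ℕ} (D : Lay q m) :
    (univ.filter fun k : D.K => ¬ isF D k ∧ k ≠ D.sv) ⊆
      {D.hv} ∪ (univ.filter fun k : D.K => D.ty k = Ty.xp) ∪
      (univ.filter fun k : D.K => D.ty k = Ty.x0) ∪
      (univ.filter fun k : D.K => D.ty k = Ty.h) ∪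
      ((range (UU q + 1)).filter fun u => u0 q ≤ u).biUnion fun u =>
        univ.filter fun k : D.K => D.ty k = Ty.g ∧ D.lev k = u := by
  intro k hk
  obtain ⟨h1, h2⟩ := (Finset.mem_filter.1 hk).2
  simp only [Finset.mem_union, Finset.mem_singleton, Finset.mem_filter, Finset.mem_univ,
    true_and, Finset.mem_biUnion, Finset.mem_range]
  rcases h : D.ty k with _ | _ | _ | _ | _ | _ | _
  · exact absurd ((D.ty_s k).1 h) h2
  · left; left; left; left; exact (D.ty_h0 k).1 h
  · left; left; left; right; rfl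
  · left; left; right; rfl
  · left; right; rfl
  · right
    refine ⟨D.lev k, ⟨?_, ?_⟩, rfl, rfl⟩
    · exact Nat.lt_succ_of_le (D.lev_g k h)
    · by_contra hcon
      exact h1 (Or.inr ⟨h, not_le.1 hcon⟩)
  · exact absurd (Or.inl h) h1

theorem nf_card {q m : ℕ} (D : Lay q m)
    (hUU : UU q + 8 ≤ q)
    (hs : ∑ u ∈ (range (UU q + 1)).filter (fun u => u0 q ≤ u), ((Pl q u : ℝ))⁻¹ ≤
      2 / 3 * qi q 20) :
    ((univ.filter fun k : D.K => ¬ isF D k ∧ k ≠ D.sv).card : ℝ) ≤
      1 + (q : ℝ) ^ 655 + (q : ℝ) ^ 655 + (q : ℝ) ^ 826 +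
        ((q : ℝ) * m * (2 / 3 * qi q 20) + q) := by
  have h1 := Finset.card_le_card (nf D)
  have h2 : ((((range (UU q + 1)).filter fun u => u0 q ≤ u).biUnion fun u =>
        univ.filter fun k : D.K => D.ty k = Ty.g ∧ D.lev k = u).card : ℝ) ≤
        (q : ℝ) * m * (2 / 3 * qi q 20) + q := by
    have e1 := Finset.card_biUnion_le (s := (range (UU q + 1)).filter fun u => u0 q ≤ u)
      (t := fun u => univ.filter fun k : D.K => D.ty k = Ty.g ∧ D.lev k = u)
    have e2 : ((((range (UU q + 1)).filter fun u => u0 q ≤ u).biUnion fun u =>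
        univ.filter fun k : D.K => D.ty k = Ty.g ∧ D.lev k = u).card : ℝ) ≤
        ∑ u ∈ (range (UU q + 1)).filter (fun u => u0 q ≤ u),
          ((univ.filter fun k : D.K => D.ty k = Ty.g ∧ D.lev k = u).card : ℝ) := by
      exact_mod_cast e1
    refine e2.trans ?_
    have e3 : ∀ u ∈ (range (UU q + 1)).filter (fun u => u0 q ≤ u),
        ((univ.filter fun k : D.K => D.ty k = Ty.g ∧ D.lev k = u).card : ℝ) ≤
          (q : ℝ) * m * ((Pl q u : ℝ))⁻¹ + 1 := by
      intro u hu
      have h3 := D.card_g2 u (Nat.le_of_lt_succ (Finset.mem_range.1 (Finset.mem_filter.1 hu).1))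
      rw [← div_eq_mul_inv]
      exact h3
    refine (Finset.sum_le_sum e3).trans ?_
    rw [Finset.sum_add_distrib, ← Finset.mul_sum, Finset.sum_const, nsmul_eq_mul, mul_one]
    have e4 : ((((range (UU q + 1)).filter fun u => u0 q ≤ u)).card : ℝ) ≤ q := by
      have : ((range (UU q + 1)).filter fun u => u0 q ≤ u).card ≤ q := by
        refine (Finset.card_filter_le _ _).trans ?_
        rw [Finset.card_range]; omega
      exact_mod_cast this
    have e5 : (q : ℝ) * m * ∑ u ∈ (range (UU q + 1)).filter (fun u => u0 q ≤ u),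
        ((Pl q u : ℝ))⁻¹ ≤ (q : ℝ) * m * (2 / 3 * qi q 20) :=
      mul_le_mul_of_nonneg_left hs (by positivity)
    linarith
  have h3 : (univ.filter fun k : D.K => ¬ isF D k ∧ k ≠ D.sv).card ≤
      1 + q ^ 655 + q ^ 655 + q ^ 826 +
      (((range (UU q + 1)).filter fun u => u0 q ≤ u).biUnion fun u =>
        univ.filter fun k : D.K => D.ty k = Ty.g ∧ D.lev k = u).card := by
    refine h1.trans ?_
    refine (Finset.card_union_le _ _).trans ?_
    refine Nat.add_le_add_right ?_ _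
    refine (Finset.card_union_le _ _).trans ?_
    refine Nat.add_le_add ?_ D.card_h
    refine (Finset.card_union_le _ _).trans ?_
    refine Nat.add_le_add ?_ D.card_x0.le
    refine (Finset.card_union_le _ _).trans ?_
    refine Nat.add_le_add ?_ D.card_xp.le
    rw [Finset.card_singleton]
  have h4 : ((univ.filter fun k : D.K => ¬ isF D k ∧ k ≠ D.sv).card : ℝ) ≤
      1 + (q : ℝ) ^ 655 + (q : ℝ) ^ 655 + (q : ℝ) ^ 826 +
      ((((range (UU q + 1)).filter fun u => u0 q ≤ u).biUnion fun u =>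
        univ.filter fun k : D.K => D.ty k = Ty.g ∧ D.lev k = u).card : ℝ) := by
    exact_mod_cast h3
  linarith

theorem op_card {q m : ℕ} (D : Lay q m) :
    (OP D).card ≤ (univ.filter fun k : D.K => ¬ isF D k ∧ k ≠ D.sv).card *
      Fintype.card D.K := by
  have h : OP D ⊆ ((univ.filter fun k : D.K => ¬ isF D k ∧ k ≠ D.sv) ×ˢ
      (univ : Finset D.K)).image fun e => s(e.1, e.2) := by
    intro e he
    obtain ⟨i, k, rfl, h1, h2, h3, h4⟩ := (Finset.mem_filter.1 he).2
    rw [Finset.mem_image]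
    by_cases hi : isF D i
    · have hk : ¬ isF D k := fun hk => h4 ⟨hi, hk⟩
      exact ⟨(k, i), Finset.mem_product.2 ⟨Finset.mem_filter.2 ⟨Finset.mem_univ _, hk, h3⟩,
        Finset.mem_univ _⟩, Sym2.eq_swap⟩
    · exact ⟨(i, k), Finset.mem_product.2 ⟨Finset.mem_filter.2 ⟨Finset.mem_univ _, hi, h2⟩,
        Finset.mem_univ _⟩, rfl⟩
  refine (Finset.card_le_card h).trans (Finset.card_image_le.trans ?_)
  rw [Finset.card_product, Finset.card_univ]

end OCOUNT

theorem st_OCOUNT (hLEV : ST_LEV) : ST_OCOUNT := by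
  filter_upwards [hLEV, eventually_ge_atTop 100000] with q hlev hq
  obtain ⟨_, _, _, _, hUU, _, _, _, _, _, _, _, _, hs⟩ := hlev
  intro m hm1 hm2 D
  have hq1 : (1 : ℝ) ≤ q := by exact_mod_cast (by omega : 1 ≤ q)
  have hq5 : (100000 : ℝ) ≤ q := by exact_mod_cast hq
  have hm : (q : ℝ) ^ 1000 ≤ m := by exact_mod_cast hm1
  have h1 := OCOUNT.nf_card D hUU hs
  have h2 := OCOUNT.op_card D
  rw [D.card_K] at h2
  set NFc := (univ.filter fun k : D.K => ¬ isF D k ∧ k ≠ D.sv).card with hNF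
  have h3 : ((OP D).card : ℝ) ≤ (NFc : ℝ) * m := by
    have : (OP D).card ≤ NFc * m := h2.trans (Nat.mul_le_mul_left _ (Nat.sub_le _ _))
    exact_mod_cast this
  -- everything is small compared with m
  have p1 : ∀ k ≤ 999, (q : ℝ) ^ k ≤ m / 100000 := by
    intro k hk
    rw [le_div_iff₀ (by norm_num)]
    calc (q : ℝ) ^ k * 100000 ≤ (q : ℝ) ^ k * q := mul_le_mul_of_nonneg_left hq5 (by positivity)
      _ = (q : ℝ) ^ (k + 1) := (pow_succ _ _).symm
      _ ≤ (q : ℝ) ^ 1000 := pow_le_pow_right₀ hq1 (by omega)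
      _ ≤ m := hm
  have p2 : (q : ℝ) * m * (2 / 3 * qi q 20) ≤ m / 100000 := by
    have e1 : (q : ℝ) * qi q 20 ≤ 1 / 100000 := by
      have e2 : qi q 20 ≤ (((q : ℝ) * (q : ℝ)))⁻¹ := by
        unfold qi
        apply inv_anti₀ (by positivity)
        rw [← pow_two]
        exact pow_le_pow_right₀ hq1 (by norm_num)
      have e3 : (q : ℝ) * (((q : ℝ) * (q : ℝ)))⁻¹ = (q : ℝ)⁻¹ := by
        have : (q : ℝ) ≠ 0 := by positivity
        field_simp
      calc (q : ℝ) * qi q 20 ≤ (q : ℝ) * (((q : ℝ) * (q : ℝ)))⁻¹ :=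
            mul_le_mul_of_nonneg_left e2 (by positivity)
        _ = (q : ℝ)⁻¹ := e3
        _ ≤ 1 / 100000 := by
            rw [one_div]; exact inv_anti₀ (by norm_num) hq5
    have e4 : (q : ℝ) * m * (2 / 3 * qi q 20) = 2 / 3 * (m * (q * qi q 20)) := by ring
    rw [e4]
    have e5 : (m : ℝ) * (q * qi q 20) ≤ m * (1 / 100000) :=
      mul_le_mul_of_nonneg_left e1 (by positivity)
    have e6 : 0 ≤ (m : ℝ) * (q * qi q 20) := by unfold qi; positivity
    linarith
  have q0 := p1 0 (by norm_num)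
  have q1 := p1 1 (by norm_num)
  have q2 := p1 655 (by norm_num)
  have q3 := p1 826 (by norm_num)
  rw [pow_zero] at q0
  rw [pow_one] at q1
  have h4 : (NFc : ℝ) ≤ m / 1000 := by
    have : (0 : ℝ) ≤ m := by positivity
    linarith
  calc ((OP D).card : ℝ) ≤ (NFc : ℝ) * m := h3
    _ ≤ m / 1000 * m := mul_le_mul_of_nonneg_right h4 (by positivity)
    _ = 1 / 1000 * (m : ℝ) ^ 2 := by ring

end Pool.Agent.Helper72.RA
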